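import Pool.Agent.Work.MP_3fbbd3_h11.Interface

/-!
# Block AVOID (from EXPN, FFG, POLY)
-/

set_option autoImplicit false

namespace Pool.Agent.Work.MP_3fbbd3_h11

open Subgroup
open scoped commutatorElement

universe u

namespace AVOID

/-- bounded exponent for a finite set of elements of a `p`-group -/
theorem bound {p : ℕ} {G : Type u} [Group G] (hp : p ≠ 0) (hpG : IsPGroup p G) {F : Set G}
    (hF : F.Finite) : ∃ e : ℕ, e ≠ 0 ∧ ∀ g ∈ F, g ^ e = 1 := by
  induction F, hF using Set.Finite.induction_on with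
  | empty => exact ⟨1, one_ne_zero, fun g hg => absurd hg (Set.notMem_empty g)⟩
  | @insert a s _ _ ih =>
    obtain ⟨e, he, h⟩ := ih
    obtain ⟨k, hk⟩ := hpG a
    refine ⟨p ^ k * e, mul_ne_zero (pow_ne_zero k hp) he, ?_⟩
    intro g hg
    rcases hg with rfl | hg
    · rw [pow_mul, hk, one_pow]
    · rw [mul_comm, pow_mul, h g hg, one_pow]

/-- the normal closure of a finite set has finite exponent -/
theorem expo (hEXPN : Stmt_EXPN.{u}) {p : ℕ} {G : Type u} [Group G] (hp : p ≠ 0)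
    (hpG : IsPGroup p G) {F : Set G} (hF : F.Finite) (hnil : Group.IsNilpotent (normalClosure F)) :
    ∃ k : ℕ, k ≠ 0 ∧ ∀ g : normalClosure F, g ^ k = 1 := by
  obtain ⟨e, he, h⟩ := bound hp hpG hF
  refine hEXPN (normalClosure F) (((↑) : normalClosure F → G) ⁻¹' (Group.conjugatesOfSet F)) e he
    ?_ ?_
  · intro s hs
    rw [Set.mem_preimage, Group.mem_conjugatesOfSet_iff] at hs
    obtain ⟨f, hf, hc⟩ := hs
    obtain ⟨c, hc⟩ := isConj_iff.mp hc
    apply Subtype.ext
    rw [SubmonoidClass.coe_pow, ← hc, conj_pow, h f hf, mul_one, mul_inv_cancel]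
    rfl
  · exact Subgroup.closure_closure_coe_preimage

/-- the restriction of an idempotent ultrafilter to a subgroup -/
theorem idem {G : Type u} [Group G] (Γ : Subgroup G) (U : Ultrafilter G) (hU : Idem U)
    (hΓ : Set.range ((↑) : Γ → G) ∈ U) :
    Idem (U.comap (m := ((↑) : Γ → G)) Subtype.val_injective hΓ) := by
  intro q hq
  rw [Ultrafilter.coe_comap, Filter.eventually_comap] at hq
  have h1 := hU _ hq
  rw [Ultrafilter.coe_comap, Filter.eventually_comap]
  filter_upwards [h1] with y hy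
  intro a ha
  rw [Filter.eventually_comap]
  filter_upwards [hy] with x hx
  intro b hb
  apply hx
  rw [← ha, ← hb]
  rfl

end AVOID

open AVOID in
theorem blk_AVOID (hEXPN : Stmt_EXPN.{u}) (hFFG : Stmt_FFG.{u}) (hPOLY : Stmt_POLY.{u}) :
    Stmt_AVOID.{u} := by
  intro p G _ hp hpG hFit N hN U hU hNU L a hL ha
  obtain ⟨-, F, hF, hNF⟩ := hN
  set F' : Set G := F ∪ ((L : Set G) ∪ {a}) with hF'
  have hF'fin : F'.Finite := hF.union (hL.union (Set.finite_singleton a))
  set Γ : Subgroup G := normalClosure F' with hΓ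
  have hnil : Group.IsNilpotent Γ := hFit F' hF'fin
  obtain ⟨k, hk, hexp⟩ := expo hEXPN hp hpG hF'fin hnil
  have hsub : F' ⊆ Γ := subset_normalClosure
  have hLΓ : ∀ l ∈ L, l ∈ Γ := fun l hl => hsub (Or.inr (Or.inl hl))
  have haΓ : a ∈ Γ := hsub (Or.inr (Or.inr rfl))
  have hNΓ : N ≤ Γ := hNF.trans (normalClosure_mono Set.subset_union_left)
  have hrange : Set.range ((↑) : Γ → G) ∈ U := by
    rw [Subtype.range_coe_subtype]
    exact Filter.mem_of_superset hNU hNΓ
  have hIdem := idem Γ U hU hrange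
  set U' := U.comap (m := ((↑) : Γ → G)) Subtype.val_injective hrange with hU'
  -- the group of polynomial maps
  let Cs : Set (Γ → Γ) := {f | ∃ l : L, ∀ x, f x = ⟨l, hLΓ l l.2⟩} ∪ {id}
  let P : Subgroup (Γ → Γ) := Subgroup.closure Cs
  have hCs : Cs.Finite := by
    apply Set.Finite.union _ (Set.finite_singleton _)
    have : Finite L := hL
    apply (Set.finite_range (fun l : L => (fun _ => ⟨l, hLΓ l l.2⟩ : Γ → Γ))).subset
    rintro f ⟨l, hl⟩
    exact ⟨l, funext fun x => (hl x).symm⟩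
  have hPfg : Group.FG P := by
    have : Finite Cs := hCs
    exact Group.closure_finite_fg Cs
  have hPn : Group.IsNilpotent (Γ → Γ) :=
    Group.isNilpotent_pi_of_bounded_class (Group.nilpotencyClass Γ) (fun _ => le_rfl)
  have hPnil : Group.IsNilpotent P := inferInstance
  have hPexp : ∀ g : P, g ^ k = 1 := by
    intro g
    apply Subtype.ext
    funext x
    exact hexp (g.1 x)
  have hPfin : Finite P := hFFG P k hk hPexp hPfg
  -- evaluation
  have hev : ∀ x : Γ, L ⊔ zpowers (x : G) ≤ (P.map (Pi.evalMonoidHom (fun _ : Γ => Γ) x)).map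
      Γ.subtype := by
    intro x
    apply sup_le
    · intro l hl
      refine ⟨⟨l, hLΓ l hl⟩, ⟨fun _ => ⟨l, hLΓ l hl⟩, ?_, rfl⟩, rfl⟩
      exact Subgroup.subset_closure (Or.inl ⟨⟨l, hl⟩, fun _ => rfl⟩)
    · rw [zpowers_le]
      exact ⟨x, ⟨id, Subgroup.subset_closure (Or.inr rfl), rfl⟩, rfl⟩
  have hev1 : P ≤ (L.subgroupOf Γ).comap (Pi.evalMonoidHom (fun _ : Γ => Γ) 1) := by
    rw [Subgroup.closure_le]
    rintro f (⟨l, hl⟩ | hf)
    · change f 1 ∈ L.subgroupOf Γ
      rw [hl 1, mem_subgroupOf]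
      exact l.2
    · rw [Set.mem_singleton_iff] at hf
      rw [hf]
      exact (L.subgroupOf Γ).one_mem
  rw [Ultrafilter.eventually_not]
  intro hev2
  have h1 : ∀ᶠ x in (U' : Filter Γ), ∃ f : P, f.1 x = ⟨a, haΓ⟩ := by
    rw [hU', Ultrafilter.coe_comap, Filter.eventually_comap]
    filter_upwards [hev2] with x hx
    intro b hb
    subst hb
    obtain ⟨c, ⟨f, hf, hfc⟩, hca⟩ := hev b hx
    refine ⟨⟨f, hf⟩, ?_⟩
    apply Subtype.ext
    change ((f b : Γ) : G) = a
    rw [← hca, ← hfc]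
    rfl
  rw [Ultrafilter.eventually_exists_iff] at h1
  obtain ⟨f, hf⟩ := h1
  have h2 : f.1 ∈ Subgroup.closure ({f : Γ → Γ | ∃ φ : Γ →* Γ, ∀ x, f x = φ x} ∪
      {f : Γ → Γ | ∃ c : Γ, ∀ x, f x = c}) := by
    apply Subgroup.closure_mono _ f.2
    rintro g (⟨l, hl⟩ | hg)
    · exact Or.inr ⟨_, hl⟩
    · left
      rw [Set.mem_singleton_iff] at hg
      exact ⟨MonoidHom.id Γ, fun x => by rw [hg]; rfl⟩
  have h3 := hPOLY Γ Γ U' hIdem f.1 h2 ⟨a, haΓ⟩ hf
  have h4 := hev1 f.2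
  rw [mem_comap] at h4
  change f.1 1 ∈ _ at h4
  rw [h3, mem_subgroupOf] at h4
  exact ha h4

end Pool.Agent.Work.MP_3fbbd3_h11
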