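import Pool.Agent.Work.MP_3fbbd3_h11.Interface

/-! Block RED: reduction to groups in which normal closures of finite sets are nilpotent. -/

namespace Pool.Agent.Work.MP_3fbbd3_h11

open Subgroup
open scoped commutatorElement

universe u

namespace RED

variable {G : Type u} [Group G]

lemma ev_map {H : Type u} [Group H] (f : G →* H) (w : W) (X : Subgroup G) :
    (w.ev X).map f = w.ev (X.map f) := by
  induction w with
  | x => rfl
  | c w₁ w₂ h₁ h₂ =>
    show ⁅w₁.ev X, w₂.ev X⁆.map f = ⁅w₁.ev (X.map f), w₂.ev (X.map f)⁆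
    rw [map_commutator, h₁, h₂]

lemma lcw_eq (n : ℕ) (X : Subgroup G) : (lcw n).ev X = X.lowerCentralSeries n := by
  induction n with
  | zero => rfl
  | succ n ih =>
    show ⁅(lcw n).ev X, X⁆ = _
    rw [ih]
    rfl

lemma kw_eq (m n : ℕ) (X : Subgroup G) :
    (kw m n).ev X = (X.lowerCentralSeries m).lowerCentralSeries n := by
  induction n with
  | zero => exact lcw_eq m X
  | succ n ih =>
    show ⁅(kw m n).ev X, (lcw m).ev X⁆ = _
    rw [ih, lcw_eq]
    rfl

lemma nil_of_le {A B : Subgroup G} (h : A ≤ B) (hB : Group.IsNilpotent B) :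
    Group.IsNilpotent A := by
  rw [isNilpotent_iff_lowerCentralSeries] at hB ⊢
  obtain ⟨n, hn⟩ := hB
  exact ⟨n, eq_bot_iff.2 (hn ▸ lowerCentralSeries_mono n h)⟩

/-- the normal nilpotent subgroups -/
def TT (G : Type u) [Group G] : Set (Subgroup G) := {A | A.Normal ∧ Group.IsNilpotent A}

lemma TT_ne : (TT G).Nonempty := ⟨⊥, inferInstance, inferInstance⟩

lemma TT_dir (hFITT : Stmt_FITT.{u}) : DirectedOn (· ≤ ·) (TT G) := by
  rintro A ⟨hA, hA'⟩ B ⟨hB, hB'⟩
  exact ⟨A ⊔ B, ⟨inferInstance, hFITT G A B hA hB hA' hB'⟩, le_sup_left, le_sup_right⟩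

lemma fit_normal (hFITT : Stmt_FITT.{u}) : (sSup (TT G)).Normal := by
  constructor
  intro n hn g
  rw [mem_sSup_of_directedOn TT_ne (TT_dir hFITT)] at hn ⊢
  obtain ⟨A, hA, hnA⟩ := hn
  exact ⟨A, hA, hA.1.conj_mem n hnA g⟩

/-- a finite subset of a directed union of subgroups lies in one of them -/
lemma fin_sub (𝒮 : Set (Subgroup G)) (hd : DirectedOn (· ≤ ·) 𝒮) (h0 : 𝒮.Nonempty)
    (F : Set G) (hF : F.Finite) (h : ∀ x ∈ F, ∃ S ∈ 𝒮, x ∈ S) :
    ∃ S ∈ 𝒮, F ⊆ (S : Set G) := by
  induction F, hF using Set.Finite.induction_on with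
  | empty =>
    obtain ⟨S, hS⟩ := h0
    exact ⟨S, hS, Set.empty_subset _⟩
  | insert _ _ ih =>
    obtain ⟨S₁, h₁, g₁⟩ := ih fun x hx => h x (Set.mem_insert_of_mem _ hx)
    obtain ⟨S₂, h₂, g₂⟩ := h _ (Set.mem_insert _ _)
    obtain ⟨S, hS, l₁, l₂⟩ := hd S₁ h₁ S₂ h₂
    exact ⟨S, hS, Set.insert_subset (l₂ g₂) (g₁.trans l₁)⟩

lemma ctx_quot {p : ℕ} (hG : Ctx p G) (N : Subgroup G) [N.Normal] (hN : N ≠ ⊤) :
    Ctx p (G ⧸ N) := by
  refine ⟨hG.prime, ?_, hG.pgrp.to_quotient N, ?_, ?_⟩
  · rw [QuotientGroup.nontrivial_iff]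
    exact hN
  · have h1 : (commutator G).map (QuotientGroup.mk' N) = commutator (G ⧸ N) := by
      rw [commutator_def, commutator_def, map_commutator,
        map_top_of_surjective _ (QuotientGroup.mk'_surjective N)]
    rw [← h1, hG.perf, map_top_of_surjective _ (QuotientGroup.mk'_surjective N)]
  · intro s hs
    have hs2 : ((fun q : G ⧸ N => Quotient.out q) '' s).Finite := hs.image _
    have h3 := (hG.lf _ hs2).image (QuotientGroup.mk' N)
    refine h3.subset ?_
    have h4 : closure s ≤ (closure ((fun q : G ⧸ N => Quotient.out q) '' s)).map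
        (QuotientGroup.mk' N) := by
      rw [closure_le]
      intro q hq
      exact ⟨Quotient.out q, subset_closure ⟨q, hq, rfl⟩, Quotient.out_eq q⟩
    exact h4

end RED

theorem blk_RED (hFG : Stmt_FG.{u}) (hFITT : Stmt_FITT.{u}) : Stmt_RED.{u} := by
  intro p G _ hG hM
  by_cases hfit : sSup (RED.TT G) = ⊤
  · refine ⟨G, inferInstance, hG, ?_, hM⟩
    intro F hF
    obtain ⟨S, hS, hFS⟩ := RED.fin_sub (RED.TT G) (RED.TT_dir hFITT) RED.TT_ne F hF (by
      intro x _
      rw [← mem_sSup_of_directedOn RED.TT_ne (RED.TT_dir hFITT), hfit]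
      exact mem_top x)
    have := hS.1
    exact RED.nil_of_le (normalClosure_le_normal hFS) hS.2
  · have hn : (sSup (RED.TT G)).Normal := RED.fit_normal hFITT
    have hctx : Ctx p (G ⧸ sSup (RED.TT G)) := RED.ctx_quot hG _ hfit
    have hsurj := QuotientGroup.mk'_surjective (sSup (RED.TT G))
    refine ⟨G ⧸ sSup (RED.TT G), inferInstance, hctx, ?_, ?_⟩
    · intro F hF
      have hne := hFG p _ hctx F hF
      have hcne : (normalClosure F).comap (QuotientGroup.mk' (sSup (RED.TT G))) ≠ ⊤ := by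
        intro hh
        apply hne
        rw [← map_comap_eq_self_of_surjective hsurj (normalClosure F), hh,
          map_top_of_surjective _ hsurj]
      obtain ⟨n, hn'⟩ := hM _ hcne
      rw [RED.kw_eq] at hn'
      have hcn : ((normalClosure F).comap (QuotientGroup.mk' (sSup (RED.TT G)))).Normal :=
        inferInstance
      have hle : ((normalClosure F).comap
          (QuotientGroup.mk' (sSup (RED.TT G)))).lowerCentralSeries n ≤ sSup (RED.TT G) :=
        le_sSup ⟨inferInstance, isNilpotent_of_lowerCentralSeries_eq_bot hn'⟩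
      rw [isNilpotent_iff_lowerCentralSeries]
      refine ⟨n, ?_⟩
      rw [← map_comap_eq_self_of_surjective hsurj (normalClosure F), ← map_lowerCentralSeries,
        Subgroup.map_eq_bot_iff, QuotientGroup.ker_mk']
      exact hle
    · intro H' hH'
      have hcne : H'.comap (QuotientGroup.mk' (sSup (RED.TT G))) ≠ ⊤ := by
        intro hh
        apply hH'
        rw [← map_comap_eq_self_of_surjective hsurj H', hh, map_top_of_surjective _ hsurj]
      obtain ⟨n, hn'⟩ := hM _ hcne
      refine ⟨n, ?_⟩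
      rw [← map_comap_eq_self_of_surjective hsurj H', ← RED.ev_map, hn', Subgroup.map_bot]

end Pool.Agent.Work.MP_3fbbd3_h11
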