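import Mathlib

/-!
Perfect locally finite `p`-groups: not every proper subgroup is metanilpotent
(MP_3fbbd3_al).  Definitions and the statements of the blocks; proofs are in BLUEPRINT.md.
-/

namespace Pool.Agent.Work.MP_3fbbd3_h11

open Subgroup
open scoped commutatorElement

universe u

/-- outer commutator words as binary trees -/
inductive W : Type
  | x : W
  | c : W → W → W

/-- the value of the word on a subgroup, computed in the ambient group -/
def W.ev {G : Type u} [Group G] : W → Subgroup G → Subgroup G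
  | .x, X => X
  | .c w₁ w₂, X => ⁅w₁.ev X, w₂.ev X⁆

/-- `(lcw n).ev X = X.lowerCentralSeries n` -/
def lcw : ℕ → W
  | 0 => .x
  | n + 1 => .c (lcw n) .x

/-- `(kw m n).ev X = (X.lowerCentralSeries m).lowerCentralSeries n` -/
def kw (m : ℕ) : ℕ → W
  | 0 => lcw m
  | n + 1 => .c (kw m n) (lcw m)

/-- `(dw n).ev X` is the `n`-th derived subgroup of `X` -/
def dw : ℕ → W
  | 0 => .x
  | n + 1 => .c (dw n) (dw n)

/-- `G` is a nontrivial perfect locally finite `p`-group -/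
structure Ctx (p : ℕ) (G : Type u) [Group G] : Prop where
  prime : p.Prime
  nontriv : Nontrivial G
  pgrp : IsPGroup p G
  perf : commutator G = ⊤
  lf : ∀ s : Set G, s.Finite → ((Subgroup.closure s : Subgroup G) : Set G).Finite

/-- the normal closure of every finite set is nilpotent -/
def FitG (G : Type u) [Group G] : Prop :=
  ∀ F : Set G, F.Finite → Group.IsNilpotent (normalClosure F)

/-- the family of small normal subgroups -/
def NN (G : Type u) [Group G] : Set (Subgroup G) :=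
  {N | N.Normal ∧ ∃ F : Set G, F.Finite ∧ N ≤ normalClosure F}

/-- `U` is idempotent (for the product of `Ultrafilter.mul`), stated with events -/
def Idem {T : Type u} [Mul T] (U : Ultrafilter T) : Prop :=
  ∀ q : T → Prop, (∀ᶠ x in (U : Filter T), q x) →
    ∀ᶠ y in (U : Filter T), ∀ᶠ x in (U : Filter T), q (y * x)

/-- the idempotent ultrafilters living on `N` which contain no (left) coset of a subgroup of
infinite index in `N` -/
def JJ {G : Type u} [Group G] (N : Subgroup G) (U : Ultrafilter G) : Prop :=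
  Idem U ∧ (N : Set G) ∈ U ∧
    ∀ (H : Subgroup G) (y : G), H ≤ N → H.relIndex N = 0 → {x : G | y⁻¹ * x ∈ H} ∉ U

/-- metanilpotent subgroups -/
def MNil {G : Type u} [Group G] (H : Subgroup G) : Prop := ∃ n : ℕ, (kw n n).ev H = ⊥

/-! ### Blocks -/

/-- FG: a perfect locally finite `p`-group is not the normal closure of a finite set -/
def Stmt_FG : Prop := ∀ (p : ℕ) (G : Type u) [Group G], Ctx p G →
  ∀ F : Set G, F.Finite → normalClosure F ≠ ⊤

/-- FI: no proper subgroup of finite index; finite normal sections are central -/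
def Stmt_FI : Prop := ∀ (p : ℕ) (G : Type u) [Group G], Ctx p G →
  (∀ H : Subgroup G, H.index ≠ 0 → H = ⊤) ∧
  ∀ A B : Subgroup G, A.Normal → B.Normal → A ≤ B → A.relIndex B ≠ 0 →
    ⁅B, (⊤ : Subgroup G)⁆ ≤ A

/-- BRK: Brookes' argument -/
def Stmt_BRK : Prop := ∀ (G : Type u) [Group G]
  (_ : ∀ s : Set G, s.Finite → ((Subgroup.closure s : Subgroup G) : Set G).Finite)
  (w : ℕ → W) (_ : ∀ H : Subgroup G, H ≠ ⊤ → ∃ n, ∀ m, n ≤ m → (w m).ev H = ⊥)
  (a : G) (_ : a ≠ 1),
  ∃ E : Subgroup G, (E : Set G).Finite ∧ a ∉ E ∧ ∃ n : ℕ, ∀ L : Subgroup G,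
    (L : Set G).Finite → E ≤ L → a ∉ L → (w n).ev L = ⊥

/-- EXPN: a nilpotent group generated by elements of bounded order has finite exponent -/
def Stmt_EXPN : Prop := ∀ (Γ : Type u) [Group Γ] [Group.IsNilpotent Γ] (S : Set Γ) (e : ℕ),
  e ≠ 0 → (∀ s ∈ S, s ^ e = 1) → Subgroup.closure S = ⊤ → ∃ k : ℕ, k ≠ 0 ∧ ∀ g : Γ, g ^ k = 1

/-- FFG: a finitely generated nilpotent group of finite exponent is finite -/
def Stmt_FFG : Prop := ∀ (Γ : Type u) [Group Γ] [Group.IsNilpotent Γ] (k : ℕ),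
  k ≠ 0 → (∀ g : Γ, g ^ k = 1) → Group.FG Γ → Finite Γ

/-- POLY: a `polynomial` function into a nilpotent group which is constant for an idempotent
ultrafilter has that constant as its value at `1` -/
def Stmt_POLY : Prop := ∀ (T : Type u) [Monoid T] (Γ : Type u) [Group Γ]
  [Group.IsNilpotent Γ] (U : Ultrafilter T), Idem U →
  ∀ f ∈ Subgroup.closure ({f : T → Γ | ∃ φ : T →* Γ, ∀ x, f x = φ x} ∪
      {f : T → Γ | ∃ c : Γ, ∀ x, f x = c}),
  ∀ a : Γ, (∀ᶠ x in (U : Filter T), f x = a) → f 1 = a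

/-- AVOID (from EXPN, FFG, POLY) -/
def Stmt_AVOID : Prop := ∀ (p : ℕ) (G : Type u) [Group G], p ≠ 0 → IsPGroup p G → FitG G →
  ∀ N ∈ NN G, ∀ U : Ultrafilter G, Idem U → (N : Set G) ∈ U →
  ∀ (L : Subgroup G) (a : G), (L : Set G).Finite → a ∉ L →
    ∀ᶠ x in (U : Filter G), a ∉ L ⊔ zpowers x

/-- ULT: existence of the ultrafilters -/
def Stmt_ULT : Prop := ∀ (G : Type u) [Group G] (N : Subgroup G), ∃ U : Ultrafilter G, JJ N U

/-- KMC: the Khukhro-Makarenko theorem for outer commutator words -/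
def Stmt_KMC : Prop := ∀ (G : Type u) [Group G] (w : W) (K : Subgroup G), K.Normal →
  K.index ≠ 0 → w.ev K = ⊥ → ∃ C : Subgroup G, C.Characteristic ∧ C.index ≠ 0 ∧ w.ev C = ⊥

/-- KMA (from FI, KMC) -/
def Stmt_KMA : Prop := ∀ (p : ℕ) (G : Type u) [Group G], Ctx p G →
  ∀ (𝒩 : Set (Subgroup G)), (∀ N ∈ 𝒩, N.Normal) → DirectedOn (· ≤ ·) 𝒩 →
  (∀ x : G, ∃ N ∈ 𝒩, x ∈ N) → ∀ (w : W) (S : Subgroup G), w.ev S = ⊥ →
  ∃ N ∈ 𝒩, S.relIndex N = 0

/-- FITT: Fitting's theorem -/
def Stmt_FITT : Prop := ∀ (G : Type u) [Group G] (A B : Subgroup G), A.Normal → B.Normal →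
  Group.IsNilpotent A → Group.IsNilpotent B → Group.IsNilpotent (A ⊔ B : Subgroup G)

/-- RED (from FG, FITT): reduction to the Fitting case -/
def Stmt_RED : Prop := ∀ (p : ℕ) (G : Type u) [Group G], Ctx p G →
  (∀ H : Subgroup G, H ≠ ⊤ → MNil H) →
  ∃ (G' : Type u) (_ : Group G'), Ctx p G' ∧ FitG G' ∧ ∀ H : Subgroup G', H ≠ ⊤ → MNil H

/-- GRUN: the preimage of the centre of a quotient of a perfect group -/
def Stmt_GRUN : Prop := ∀ (G : Type u) [Group G], commutator G = ⊤ →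
  ∀ R : Subgroup G, R.Normal →
    (∀ y : G, (∀ g : G, ∀ h : G, ⁅⁅y, g⁆, h⁆ ∈ R) → ∀ g : G, ⁅y, g⁆ ∈ R)

end Pool.Agent.Work.MP_3fbbd3_h11
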