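import Mathlib
import Pool.Agent.Work.MP_3fbbd3_h11.Interface

/-!
Block BRK: Brookes' argument.
-/

namespace Pool.Agent.Work.MP_3fbbd3_h11.BRK

open Subgroup
open scoped commutatorElement

universe u

theorem ev_mono {G : Type u} [Group G] : ∀ (w : W) (X Y : Subgroup G), X ≤ Y → w.ev X ≤ w.ev Y
  | .x, X, Y, h => h
  | .c w₁ w₂, X, Y, h => by
      have h1 := ev_mono w₁ X Y h
      have h2 := ev_mono w₂ X Y h
      exact Subgroup.commutator_mono h1 h2

end Pool.Agent.Work.MP_3fbbd3_h11.BRK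

namespace Pool.Agent.Work.MP_3fbbd3_h11

open Subgroup

universe u

theorem blk_BRK : Stmt_BRK.{u} := by
  classical
  intro G _ _ w hw a ha
  by_contra hcon
  push Not at hcon
  have hcon' : ∀ E : {E : Subgroup G // (E : Set G).Finite ∧ a ∉ E}, ∀ n : ℕ,
      ∃ L : {E : Subgroup G // (E : Set G).Finite ∧ a ∉ E}, E.1 ≤ L.1 ∧ (w n).ev L.1 ≠ ⊥ := by
    rintro ⟨E, hE, hEa⟩ n
    obtain ⟨L, hL, hEL, hLa, hne⟩ := hcon E hE hEa n
    exact ⟨⟨L, hL, hLa⟩, hEL, hne⟩
  choose L hL1 hL2 using hcon'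
  let E : ℕ → {E : Subgroup G // (E : Set G).Finite ∧ a ∉ E} := fun k =>
    Nat.rec ⟨⊥, by simp, by simpa using ha⟩ (fun k E => L E k) k
  have hEs : ∀ k, E (k + 1) = L (E k) k := fun k => rfl
  have hmono : Monotone fun k => (E k).1 := by
    refine monotone_nat_of_le_succ fun k => ?_
    rw [hEs]
    exact hL1 _ _
  let H : Subgroup G := ⨆ k, (E k).1
  have haH : a ∉ H := by
    intro h
    have := (Subgroup.mem_iSup_of_directed (hmono.directed_le)).mp h
    obtain ⟨k, hk⟩ := this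
    exact (E k).2.2 hk
  obtain ⟨n, hn⟩ := hw H (fun h => haH (h ▸ Subgroup.mem_top a))
  refine hL2 (E n) n ?_
  rw [eq_bot_iff, ← hn n le_rfl, ← hEs]
  exact BRK.ev_mono _ _ _ (le_iSup (fun k => (E k).1) (n + 1))

end Pool.Agent.Work.MP_3fbbd3_h11
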