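import Pool.Agent.Work.MP_3fbbd3_h11.Interface

/-!
# Block EXPN: a nilpotent group generated by elements of bounded order has finite exponent
-/

set_option autoImplicit false

namespace Pool.Agent.Work.MP_3fbbd3_h11

open Subgroup
open scoped commutatorElement

universe u

namespace EXPN

theorem comm_pow {Q : Type u} [Group Q] (x y : Q) (h : Commute ⁅x, y⁆ x) (n : ℕ) :
    ⁅x ^ n, y⁆ = ⁅x, y⁆ ^ n := by
  induction n with
  | zero => simp
  | succ n ih =>
    have h1 : ⁅x ^ (n + 1), y⁆ = x * ⁅x ^ n, y⁆ * (y * x⁻¹ * y⁻¹) := by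
      simp only [commutatorElement_def, pow_succ', mul_inv_rev]
      group
    rw [h1, ih, (h.pow_left n).symm.eq, pow_succ]
    simp only [commutatorElement_def, mul_assoc]

theorem mul_pow_mem {Γ : Type u} [Group Γ] (N : Subgroup Γ) [N.Normal] (x y : Γ) (e : ℕ)
    (h : ⁅x, y⁆ ∈ N) (hx : x ^ e ∈ N) (hy : y ^ e ∈ N) : (x * y) ^ e ∈ N := by
  have hc : Commute (x : Γ ⧸ N) (y : Γ ⧸ N) := by
    rw [← commutatorElement_eq_one_iff_commute]
    have := (QuotientGroup.eq_one_iff (⁅x, y⁆ : Γ)).mpr h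
    simpa [commutatorElement_def] using this
  rw [← QuotientGroup.eq_one_iff] at hx hy ⊢
  rw [QuotientGroup.mk_pow] at hx hy ⊢
  rw [QuotientGroup.mk_mul, hc.mul_pow, hx, hy, one_mul]

theorem comm_pow_mem {Γ : Type u} [Group Γ] (N : Subgroup Γ) [N.Normal] (x y : Γ) (e : ℕ)
    (h : ⁅⁅x, y⁆, x⁆ ∈ N) (hx : ⁅x ^ e, y⁆ ∈ N) : ⁅x, y⁆ ^ e ∈ N := by
  have hc : Commute ⁅(x : Γ ⧸ N), (y : Γ ⧸ N)⁆ (x : Γ ⧸ N) := by
    rw [← commutatorElement_eq_one_iff_commute]
    have := (QuotientGroup.eq_one_iff (⁅⁅x, y⁆, x⁆ : Γ)).mpr h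
    simpa [commutatorElement_def] using this
  have h1 := comm_pow _ _ hc e
  rw [← QuotientGroup.eq_one_iff] at hx ⊢
  have h2 : (((⁅x ^ e, y⁆ : Γ)) : Γ ⧸ N) = ⁅(x : Γ ⧸ N) ^ e, (y : Γ ⧸ N)⁆ := by
    simp [commutatorElement_def]
  have h3 : (((⁅x, y⁆ ^ e : Γ)) : Γ ⧸ N) = ⁅(x : Γ ⧸ N), (y : Γ ⧸ N)⁆ ^ e := by
    simp [commutatorElement_def]
  rw [h3, ← h1, ← h2, hx]

theorem step {Γ : Type u} [Group Γ] (S : Set Γ) (e : ℕ) (hS : ∀ s ∈ S, s ^ e = 1)
    (hcl : Subgroup.closure S = ⊤) (i : ℕ) :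
    ∀ x ∈ (⊤ : Subgroup Γ).lowerCentralSeries i,
      x ^ e ∈ (⊤ : Subgroup Γ).lowerCentralSeries (i + 1) := by
  induction i with
  | zero =>
    intro x _
    have hx : x ∈ Subgroup.closure S := by rw [hcl]; exact mem_top x
    induction hx using Subgroup.closure_induction with
    | mem s hs => rw [hS s hs]; exact one_mem _
    | one => rw [one_pow]; exact one_mem _
    | mul a b _ _ ha hb =>
      exact mul_pow_mem _ a b e (commutator_mem_commutator (mem_top a) (mem_top b))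
        (ha (mem_top _)) (hb (mem_top _))
    | inv a _ ha => rw [inv_pow]; exact inv_mem (ha (mem_top _))
  | succ i ih =>
    intro x hx
    rw [Subgroup.mem_lowerCentralSeries_succ_iff] at hx
    induction hx using Subgroup.closure_induction with
    | mem s hs =>
      obtain ⟨a, ha, b, -, rfl⟩ := hs
      apply comm_pow_mem
      · exact commutator_mem_commutator (commutator_mem_commutator ha (mem_top b)) (mem_top a)
      · exact commutator_mem_commutator (ih a ha) (mem_top b)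
    | one => rw [one_pow]; exact one_mem _
    | mul a b ha' _ ha hb =>
      exact mul_pow_mem _ a b e (commutator_mem_commutator
        ((Subgroup.mem_lowerCentralSeries_succ_iff _ _ _).mpr ha') (mem_top b)) ha hb
    | inv a _ ha => rw [inv_pow]; exact inv_mem ha

end EXPN

theorem blk_EXPN : Stmt_EXPN.{u} := by
  intro Γ _ hnil S e he hS hcl
  obtain ⟨n, hn⟩ := Subgroup.nilpotent_iff_lowerCentralSeries.mp hnil
  refine ⟨e ^ n, pow_ne_zero n he, ?_⟩
  have h : ∀ (m : ℕ) (g : Γ), g ^ (e ^ m) ∈ (⊤ : Subgroup Γ).lowerCentralSeries m := by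
    intro m
    induction m with
    | zero => intro g; exact mem_top _
    | succ m ih =>
      intro g
      rw [pow_succ, pow_mul]
      exact EXPN.step S e hS hcl m _ (ih g)
  intro g
  have := h n g
  rw [hn] at this
  exact Subgroup.mem_bot.mp this

end Pool.Agent.Work.MP_3fbbd3_h11
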