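import Mathlib
import Pool.Agent.Work.MP_3fbbd3_h11.Interface

/-!
Block FFG: a finitely generated nilpotent group of finite exponent is finite.
-/

namespace Pool.Agent.Work.MP_3fbbd3_h11

open Subgroup

universe u

theorem blk_FFG : Stmt_FFG.{u} := by
  intro Γ _ _
  refine Group.nilpotent_center_quotient_ind
    (P := fun (Γ : Type u) [Group Γ] [Group.IsNilpotent Γ] => ∀ (k : ℕ), k ≠ 0 →
      (∀ g : Γ, g ^ k = 1) → Group.FG Γ → Finite Γ) Γ ?_ ?_
  · intro G _ _ k hk hg hfg
    exact Finite.of_subsingleton
  · intro G _ _ ih k hk hg hfg
    have hq : Finite (G ⧸ center G) := by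
      refine ih k hk ?_ ?_
      · intro g
        induction g using QuotientGroup.induction_on with
        | H g => rw [← QuotientGroup.mk_pow, hg, QuotientGroup.mk_one]
      · infer_instance
    have hfi : (center G).FiniteIndex := Subgroup.finiteIndex_iff_finite_quotient.mpr hq
    have hzfg : Group.FG (center G) := Subgroup.fg_of_index_ne_zero (center G)
    have hzf : Finite (center G) := by
      have := hzfg
      let _ : CommGroup (center G) :=
        { (inferInstance : Group (center G)) with
          mul_comm := fun a b => Subtype.ext (Subgroup.mem_center_iff.mp b.2 a) }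
      refine CommGroup.finite_of_fg_isMulTorsion (center G) ?_
      intro z
      rw [isOfFinOrder_iff_pow_eq_one]
      refine ⟨k, Nat.pos_of_ne_zero hk, ?_⟩
      exact Subtype.ext (by simpa using hg (z : G))
    exact Finite.of_equiv _ (Subgroup.groupEquivQuotientProdSubgroup (s := center G)).symm

end Pool.Agent.Work.MP_3fbbd3_h11
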