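import Pool.Agent.Work.MP_3fbbd3_h11.Interface

/-!
Block FG of MP_3fbbd3_al: a perfect locally finite `p`-group is not the normal closure of a
finite set.
-/

set_option autoImplicit false

namespace Pool.Agent.Work.MP_3fbbd3_h11

open Subgroup
open scoped commutatorElement

universe u

namespace FG

variable {G : Type u} [Group G]

/-- the subgroup generated by the conjugates `t f t⁻¹`, `t ∈ T`, `f ∈ F` -/
def NT (F : Set G) (T : Finset G) : Subgroup G :=
  Subgroup.closure {x | ∃ t ∈ T, ∃ f ∈ F, x = t * f * t⁻¹}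

theorem NT_mono (F : Set G) {T T' : Finset G} (h : T ⊆ T') : NT F T ≤ NT F T' := by
  apply Subgroup.closure_mono
  rintro x ⟨t, ht, f, hf, rfl⟩
  exact ⟨t, h ht, f, hf, rfl⟩

theorem mem_NT (F : Set G) {x : G} (hx : x ∈ normalClosure F) : ∃ T : Finset G, x ∈ NT F T := by
  classical
  have h : normalClosure F ≤ ⨆ T : Finset G, NT F T := by
    refine (Subgroup.closure_le _).2 ?_
    intro y hy
    rw [Group.mem_conjugatesOfSet_iff] at hy
    obtain ⟨f, hf, hc⟩ := hy
    obtain ⟨t, rfl⟩ := isConj_iff.1 hc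
    exact Subgroup.mem_iSup_of_mem {t}
      (Subgroup.subset_closure ⟨t, Finset.mem_singleton_self t, f, hf, rfl⟩)
  have hdir : Directed (· ≤ ·) (NT F) := fun T T' =>
    ⟨T ∪ T', NT_mono F Finset.subset_union_left, NT_mono F Finset.subset_union_right⟩
  exact (Subgroup.mem_iSup_of_directed hdir).1 (h hx)

theorem mem_comm (F : Set G) (hF : normalClosure F = ⊤) (hperf : commutator G = ⊤) (x : G) :
    ∃ T : Finset G, x ∈ ⁅NT F T, NT F T⁆ := by
  classical
  have hdir : Directed (· ≤ ·) (fun T => ⁅NT F T, NT F T⁆) := fun T T' =>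
    ⟨T ∪ T', Subgroup.commutator_mono (NT_mono F Finset.subset_union_left)
        (NT_mono F Finset.subset_union_left),
      Subgroup.commutator_mono (NT_mono F Finset.subset_union_right)
        (NT_mono F Finset.subset_union_right)⟩
  have h : (⊤ : Subgroup G) ≤ ⨆ T : Finset G, ⁅NT F T, NT F T⁆ := by
    rw [← hperf, commutator_def, Subgroup.commutator_le]
    intro g₁ _ g₂ _
    have e1 : g₁ ∈ normalClosure F := by rw [hF]; exact mem_top g₁
    have e2 : g₂ ∈ normalClosure F := by rw [hF]; exact mem_top g₂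
    obtain ⟨T₁, h₁⟩ := mem_NT F e1
    obtain ⟨T₂, h₂⟩ := mem_NT F e2
    exact Subgroup.mem_iSup_of_mem (T₁ ∪ T₂) (Subgroup.commutator_mem_commutator
      (NT_mono F Finset.subset_union_left h₁) (NT_mono F Finset.subset_union_right h₂))
  exact (Subgroup.mem_iSup_of_directed hdir).1 (h (mem_top x))

/-- a subgroup of a nilpotent group contained in its own commutator subgroup is trivial -/
theorem nil_eq_bot {P : Type u} [Group P] [Group.IsNilpotent P] (N : Subgroup P)
    (h : N ≤ ⁅N, N⁆) : N = ⊥ := by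
  have hk : ∀ k, N ≤ (⊤ : Subgroup P).lowerCentralSeries k := by
    intro k
    induction k with
    | zero => exact le_top
    | succ k ih =>
      exact h.trans (Subgroup.commutator_mono ih le_top)
  obtain ⟨n, hn⟩ := (Subgroup.nilpotent_iff_lowerCentralSeries (G := P)).1 inferInstance
  rw [eq_bot_iff, ← hn]
  exact hk n

theorem main (p : ℕ) (hG : Ctx p G) (F : Set G) (hFfin : F.Finite) : normalClosure F ≠ ⊤ := by
  classical
  intro hF
  choose T hT using mem_comm F hF hG.perf
  obtain ⟨F₀, rfl⟩ : ∃ F₀ : Finset G, F = ↑F₀ := ⟨hFfin.toFinset, hFfin.coe_toFinset.symm⟩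
  set TT : Finset G := F₀.biUnion T with hTT
  have hmem : ∀ f ∈ F₀, f ∈ ⁅NT (↑F₀) TT, NT (↑F₀) TT⁆ := by
    intro f hf
    have e1 : NT (↑F₀) (T f) ≤ NT (↑F₀) TT :=
      NT_mono _ (Finset.subset_biUnion_of_mem T hf)
    exact Subgroup.commutator_mono e1 e1 (hT f)
  set P : Subgroup G := Subgroup.closure (↑(F₀ ∪ TT) : Set G) with hP
  have hPfin : (P : Set G).Finite := hG.lf _ (Finset.finite_toSet _)
  have : Finite P := hPfin.to_subtype
  have : Fact p.Prime := ⟨hG.prime⟩
  have hnil : Group.IsNilpotent P := (hG.pgrp.to_subgroup P).isNilpotent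
  have hF₀P : ∀ f ∈ F₀, f ∈ P := fun f hf =>
    Subgroup.subset_closure (Finset.mem_coe.2 (Finset.mem_union_left _ hf))
  have hTP : ∀ t ∈ TT, t ∈ P := fun t ht =>
    Subgroup.subset_closure (Finset.mem_coe.2 (Finset.mem_union_right _ ht))
  set F' : Set P := {x | (x : G) ∈ F₀} with hF'
  have hNT : NT (↑F₀) TT ≤ (normalClosure F').map P.subtype := by
    refine (Subgroup.closure_le _).2 ?_
    rintro x ⟨t, ht, f, hf, rfl⟩
    rw [Finset.mem_coe] at hf
    refine ⟨⟨t, hTP t ht⟩ * ⟨f, hF₀P f hf⟩ * ⟨t, hTP t ht⟩⁻¹, ?_, rfl⟩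
    exact (Subgroup.normalClosure_normal (s := F')).conj_mem _
      (Subgroup.subset_normalClosure hf) _
  have hN : normalClosure F' ≤ ⁅normalClosure F', normalClosure F'⁆ := by
    apply Subgroup.normalClosure_le_normal
    intro x hx
    have h1 : (x : G) ∈ ⁅NT (↑F₀) TT, NT (↑F₀) TT⁆ := hmem x hx
    have h2 := Subgroup.commutator_mono hNT hNT h1
    rw [← Subgroup.map_commutator] at h2
    obtain ⟨y, hy, hyx⟩ := h2
    have : y = x := Subtype.ext hyx
    rw [← this]
    exact hy
  have hbot := nil_eq_bot _ hN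
  have hone : ∀ f ∈ F₀, f = 1 := by
    intro f hf
    have h1 : (⟨f, hF₀P f hf⟩ : P) ∈ normalClosure F' := Subgroup.subset_normalClosure hf
    rw [hbot, Subgroup.mem_bot] at h1
    exact congrArg Subtype.val h1
  have h3 : normalClosure (↑F₀ : Set G) ≤ ⊥ := by
    apply Subgroup.normalClosure_le_normal
    intro f hf
    exact hone f hf
  rw [hF] at h3
  have := hG.nontriv
  exact top_ne_bot (le_bot_iff.1 h3)

end FG

theorem blk_FG : Stmt_FG.{u} := fun p _ _ hG F hF => FG.main p hG F hF

end Pool.Agent.Work.MP_3fbbd3_h11
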