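import Pool.Agent.Work.MP_3fbbd3_h11.Interface

/-!
Block FI of MP_3fbbd3_al: a perfect locally finite `p`-group has no proper subgroup of finite
index, and its finite normal sections are central.
-/

set_option autoImplicit false

namespace Pool.Agent.Work.MP_3fbbd3_h11

open Subgroup
open scoped commutatorElement

universe u

namespace FI

variable {G : Type u} [Group G]

/-- a subgroup of a nilpotent group contained in its own commutator subgroup is trivial -/
theorem nil_eq_bot {P : Type u} [Group P] [Group.IsNilpotent P] (N : Subgroup P)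
    (h : N ≤ ⁅N, N⁆) : N = ⊥ := by
  have hk : ∀ k, N ≤ (⊤ : Subgroup P).lowerCentralSeries k := by
    intro k
    induction k with
    | zero => exact le_top
    | succ k ih =>
      exact h.trans (Subgroup.commutator_mono ih le_top)
  obtain ⟨n, hn⟩ := (Subgroup.nilpotent_iff_lowerCentralSeries (G := P)).1 inferInstance
  rw [eq_bot_iff, ← hn]
  exact hk n

theorem top_of_index (p : ℕ) (hG : Ctx p G) (H : Subgroup G) (hH : H.index ≠ 0) : H = ⊤ := by
  have : H.FiniteIndex := ⟨hH⟩
  have : H.normalCore.FiniteIndex := inferInstance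
  have : Fact p.Prime := ⟨hG.prime⟩
  have : Finite (G ⧸ H.normalCore) := inferInstance
  have hp : IsPGroup p (G ⧸ H.normalCore) := hG.pgrp.to_quotient _
  have : Group.IsNilpotent (G ⧸ H.normalCore) := hp.isNilpotent
  have h1 : (⊤ : Subgroup (G ⧸ H.normalCore)) ≤ ⁅(⊤ : Subgroup (G ⧸ H.normalCore)), ⊤⁆ := by
    have h2 : (⊤ : Subgroup G).map (QuotientGroup.mk' H.normalCore) = ⊤ :=
      Subgroup.map_top_of_surjective _ (QuotientGroup.mk'_surjective _)
    have h3 := congrArg (Subgroup.map (QuotientGroup.mk' H.normalCore)) hG.perf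
    rw [commutator_def, Subgroup.map_commutator, h2] at h3
    exact h3.ge
  have h4 := nil_eq_bot _ h1
  have h5 : H.normalCore = ⊤ := by
    rw [eq_top_iff]
    intro g _
    have h6 : (QuotientGroup.mk g : G ⧸ H.normalCore) ∈ (⊤ : Subgroup (G ⧸ H.normalCore)) :=
      mem_top _
    rw [h4, Subgroup.mem_bot] at h6
    exact (QuotientGroup.eq_one_iff g).1 h6
  rw [eq_top_iff, ← h5]
  exact H.normalCore_le

theorem central (p : ℕ) (hG : Ctx p G) (A B : Subgroup G) (hA : A.Normal) (hB : B.Normal)
    (hi : A.relIndex B ≠ 0) : ⁅B, (⊤ : Subgroup G)⁆ ≤ A := by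
  rw [Subgroup.commutator_le]
  intro b hb g _
  have hfin : Finite (B.map (QuotientGroup.mk' A)) := by
    apply Nat.finite_of_card_ne_zero
    rw [← Subgroup.relIndex_bot_left, ← Subgroup.relIndex_comap, MonoidHom.comap_bot,
      QuotientGroup.ker_mk']
    exact hi
  set x : G ⧸ A := QuotientGroup.mk' A b with hx
  set C : Subgroup G := (Subgroup.centralizer {x}).comap (QuotientGroup.mk' A) with hC
  have hC1 : C.index ≠ 0 := by
    rw [hC, Subgroup.index_comap_of_surjective _ (QuotientGroup.mk'_surjective A)]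
    have h1 := MulAction.index_stabilizer (ConjAct (G ⧸ A)) x
    rw [ConjAct.stabilizer_eq_centralizer] at h1
    have h2 : (MulAction.orbit (ConjAct (G ⧸ A)) x).Finite := by
      refine (Set.toFinite (B.map (QuotientGroup.mk' A) : Set (G ⧸ A))).subset ?_
      rintro _ ⟨y, rfl⟩
      obtain ⟨z, hz⟩ := QuotientGroup.mk'_surjective A (ConjAct.ofConjAct y)
      refine ⟨z * b * z⁻¹, hB.conj_mem b hb z, ?_⟩
      show _ = y • x
      rw [ConjAct.smul_def, map_mul, map_mul, map_inv, hz, hx]
    have h3 : (MulAction.orbit (ConjAct (G ⧸ A)) x).ncard ≠ 0 :=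
      Set.ncard_ne_zero_of_mem (MulAction.mem_orbit_self x) h2
    rw [← h1] at h3
    exact h3
  have hCtop := top_of_index p hG C hC1
  have hg : g ∈ C := by rw [hCtop]; exact mem_top g
  rw [hC, Subgroup.mem_comap, Subgroup.mem_centralizer_singleton_iff] at hg
  rw [← QuotientGroup.ker_mk' A, MonoidHom.mem_ker, map_commutatorElement,
    commutatorElement_eq_one_iff_mul_comm]
  exact hg.symm

end FI

theorem blk_FI : Stmt_FI.{u} := fun p _ _ hG =>
  ⟨FI.top_of_index p hG, fun A B hA hB _ hi => FI.central p hG A B hA hB hi⟩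

end Pool.Agent.Work.MP_3fbbd3_h11
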