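import Pool.Agent.Work.MP_3fbbd3_h11.Interface

/-! Block KMA: a subgroup with an outer commutator law has infinite index in some member of a
directed family of normal subgroups with union `G`. -/

namespace Pool.Agent.Work.MP_3fbbd3_h11

open Subgroup
open scoped commutatorElement

universe u

namespace KMA

variable {G : Type u} [Group G]

lemma ev_mono (w : W) {X Y : Subgroup G} (h : X ≤ Y) : w.ev X ≤ w.ev Y := by
  induction w with
  | x => exact h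
  | c w₁ w₂ h₁ h₂ => exact commutator_mono h₁ h₂

lemma ev_map {H : Type u} [Group H] (f : G →* H) (w : W) (X : Subgroup G) :
    (w.ev X).map f = w.ev (X.map f) := by
  induction w with
  | x => rfl
  | c w₁ w₂ h₁ h₂ =>
    show ⁅w₁.ev X, w₂.ev X⁆.map f = ⁅w₁.ev (X.map f), w₂.ev (X.map f)⁆
    rw [map_commutator, h₁, h₂]

lemma ev_top (hp : commutator G = ⊤) (w : W) : w.ev (⊤ : Subgroup G) = ⊤ := by
  induction w with
  | x => rfl
  | c w₁ w₂ h₁ h₂ =>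
    show ⁅w₁.ev (⊤ : Subgroup G), w₂.ev (⊤ : Subgroup G)⁆ = ⊤
    rw [h₁, h₂]
    exact hp

/-- the union of a directed family of subgroups contains a commutator subgroup as soon as it
contains the commutators -/
lemma comm_union (𝒮 : Set (Subgroup G)) (hd : DirectedOn (· ≤ ·) 𝒮) (h0 : 𝒮.Nonempty)
    (A B : Subgroup G) (h : ∀ a ∈ A, ∀ b ∈ B, ∃ S ∈ 𝒮, ⁅a, b⁆ ∈ S) :
    ∀ x ∈ ⁅A, B⁆, ∃ S ∈ 𝒮, x ∈ S := by
  intro x hx
  have h1 : ⁅A, B⁆ ≤ sSup 𝒮 := by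
    rw [commutator_le]
    intro a ha b hb
    rw [mem_sSup_of_directedOn h0 hd]
    exact h a ha b hb
  exact (mem_sSup_of_directedOn h0 hd).1 (h1 hx)

lemma ev_union (hp : commutator G = ⊤) (𝒩 : Set (Subgroup G)) (hd : DirectedOn (· ≤ ·) 𝒩)
    (hu : ∀ x : G, ∃ N ∈ 𝒩, x ∈ N) (w : W) :
    ∀ x ∈ w.ev (⊤ : Subgroup G), ∃ N ∈ 𝒩, x ∈ w.ev ⁅N, (⊤ : Subgroup G)⁆ := by
  have h0 : 𝒩.Nonempty := by
    obtain ⟨N, hN, -⟩ := hu 1
    exact ⟨N, hN⟩
  have hdir : ∀ w : W, DirectedOn (· ≤ ·)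
      ((fun N : Subgroup G => w.ev ⁅N, (⊤ : Subgroup G)⁆) '' 𝒩) := by
    rintro w _ ⟨N₁, hN₁, rfl⟩ _ ⟨N₂, hN₂, rfl⟩
    obtain ⟨N, hN, l₁, l₂⟩ := hd N₁ hN₁ N₂ hN₂
    exact ⟨_, ⟨N, hN, rfl⟩, ev_mono w (commutator_mono l₁ le_rfl),
      ev_mono w (commutator_mono l₂ le_rfl)⟩
  induction w with
  | x =>
    intro x _
    have hx : x ∈ ⁅(⊤ : Subgroup G), (⊤ : Subgroup G)⁆ := by
      have : x ∈ commutator G := by rw [hp]; exact mem_top x
      exact this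
    obtain ⟨S, ⟨N, hN, rfl⟩, hS⟩ := comm_union _ (hdir .x) (h0.image _) ⊤ ⊤ (by
      intro a _ b hb
      obtain ⟨N, hN, haN⟩ := hu a
      exact ⟨_, ⟨N, hN, rfl⟩, commutator_mem_commutator haN hb⟩) x hx
    exact ⟨N, hN, hS⟩
  | c w₁ w₂ h₁ h₂ =>
    intro x hx
    obtain ⟨S, ⟨N, hN, rfl⟩, hS⟩ := comm_union _ (hdir (.c w₁ w₂)) (h0.image _) _ _ (by
      intro a ha b hb
      obtain ⟨N₁, hN₁, g₁⟩ := h₁ a ha
      obtain ⟨N₂, hN₂, g₂⟩ := h₂ b hb
      obtain ⟨N, hN, l₁, l₂⟩ := hd N₁ hN₁ N₂ hN₂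
      exact ⟨_, ⟨N, hN, rfl⟩, commutator_mem_commutator
        (ev_mono w₁ (commutator_mono l₁ le_rfl) g₁) (ev_mono w₂ (commutator_mono l₂ le_rfl) g₂)⟩) x hx
    exact ⟨N, hN, hS⟩

/-- a finite index subgroup with a law gives a normal subgroup of `G` with this law -/
lemma step (hKMC : Stmt_KMC.{u}) (w : W) (S : Subgroup G) (hS : w.ev S = ⊥) (N : Subgroup G)
    (hN : N.Normal) (hi : S.relIndex N ≠ 0) :
    ∃ C : Subgroup G, C.Normal ∧ C ≤ N ∧ C.relIndex N ≠ 0 ∧ w.ev C = ⊥ := by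
  have : (S.subgroupOf N).FiniteIndex := ⟨hi⟩
  have hev : w.ev (S.subgroupOf N).normalCore = ⊥ := by
    rw [← map_subtype_inj, Subgroup.map_bot, ev_map, eq_bot_iff, ← hS]
    refine ev_mono w ?_
    refine (map_mono (normalCore_le _)).trans ?_
    rw [subgroupOf_map_subtype]
    exact inf_le_left
  obtain ⟨C, hC, hCi, hCw⟩ := hKMC N w (S.subgroupOf N).normalCore inferInstance
    FiniteIndex.index_ne_zero hev
  have := hN
  refine ⟨C.map N.subtype, inferInstance, map_subtype_le C, ?_, ?_⟩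
  · have e : (C.map N.subtype).relIndex N = C.index := by
      rw [relIndex, subgroupOf, comap_map_eq_self_of_injective N.subtype_injective]
    rw [e]
    exact hCi
  · rw [← ev_map, hCw, Subgroup.map_bot]

end KMA

theorem blk_KMA (hFI : Stmt_FI.{u}) (hKMC : Stmt_KMC.{u}) : Stmt_KMA.{u} := by
  intro p G _ hG 𝒩 hn hd hu w S hS
  by_contra hh
  push Not at hh
  obtain ⟨g, hg⟩ := (nontrivial_iff_exists_ne (1 : G)).1 hG.nontriv
  have hgt : g ∈ w.ev (⊤ : Subgroup G) := by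
    rw [KMA.ev_top hG.perf]
    exact mem_top g
  obtain ⟨N, hN, hgN⟩ := KMA.ev_union hG.perf 𝒩 hd hu w g hgt
  obtain ⟨C, hC, hCN, hCi, hCw⟩ := KMA.step hKMC w S hS N (hn N hN) (hh N hN)
  have hle := (hFI p G hG).2 C N hC (hn N hN) hCN hCi
  have : g ∈ w.ev C := KMA.ev_mono w hle hgN
  rw [hCw, mem_bot] at this
  exact hg this

end Pool.Agent.Work.MP_3fbbd3_h11
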