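import Mathlib
import Pool.Agent.Work.MP_3fbbd3_h11.Interface

/-!
Block KMC: the Khukhro-Makarenko theorem for outer commutator words.
-/

namespace Pool.Agent.Work.MP_3fbbd3_h11.KMC

open Subgroup
open scoped commutatorElement

universe u

/-- the leaves of a word -/
def Lf : W → Type
  | .x => Unit
  | .c w₁ w₂ => Lf w₁ ⊕ Lf w₂

instance Lf.finite : ∀ w : W, Finite (Lf w)
  | .x => inferInstanceAs (Finite Unit)
  | .c w₁ w₂ => by
      have := Lf.finite w₁
      have := Lf.finite w₂
      exact inferInstanceAs (Finite (Lf w₁ ⊕ Lf w₂))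

/-- the value of the word with a subgroup at each leaf -/
def evl {G : Type u} [Group G] : (w : W) → (Lf w → Subgroup G) → Subgroup G
  | .x, f => f ()
  | .c w₁ w₂, f => ⁅evl w₁ (fun i => f (Sum.inl i)), evl w₂ (fun i => f (Sum.inr i))⁆

variable {G : Type u} [Group G]

theorem evl_const (X : Subgroup G) : ∀ w : W, evl w (fun _ => X) = w.ev X
  | .x => rfl
  | .c w₁ w₂ => by
      have h1 := evl_const X w₁
      have h2 := evl_const X w₂
      change ⁅evl w₁ (fun _ => X), evl w₂ (fun _ => X)⁆ = ⁅w₁.ev X, w₂.ev X⁆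
      rw [h1, h2]

theorem evl_mono : ∀ (w : W) (f g : Lf w → Subgroup G), (∀ i, f i ≤ g i) → evl w f ≤ evl w g
  | .x, f, g, h => h ()
  | .c w₁ w₂, f, g, h => by
      have h1 := evl_mono w₁ (fun i => f (Sum.inl i)) (fun i => g (Sum.inl i)) fun i => h _
      have h2 := evl_mono w₂ (fun i => f (Sum.inr i)) (fun i => g (Sum.inr i)) fun i => h _
      exact Subgroup.commutator_mono h1 h2

theorem evl_map (φ : G →* G) : ∀ (w : W) (f : Lf w → Subgroup G),
    (evl w f).map φ = evl w (fun i => (f i).map φ)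
  | .x, f => rfl
  | .c w₁ w₂, f => by
      have h1 := evl_map φ w₁ (fun i => f (Sum.inl i))
      have h2 := evl_map φ w₂ (fun i => f (Sum.inr i))
      change (⁅evl w₁ (fun i => f (Sum.inl i)), evl w₂ (fun i => f (Sum.inr i))⁆).map φ =
        ⁅evl w₁ (fun i => (f (Sum.inl i)).map φ), evl w₂ (fun i => (f (Sum.inr i)).map φ)⁆
      rw [Subgroup.map_commutator, h1, h2]

theorem evl_normal : ∀ (w : W) (f : Lf w → Subgroup G), (∀ i, (f i).Normal) → (evl w f).Normal
  | .x, f, h => h ()
  | .c w₁ w₂, f, h => by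
      have h1 := evl_normal w₁ (fun i => f (Sum.inl i)) fun i => h _
      have h2 := evl_normal w₂ (fun i => f (Sum.inr i)) fun i => h _
      exact Subgroup.commutator_normal _ _

theorem comm_iSup_left {ι : Sort*} (A : ι → Subgroup G) (C : Subgroup G)
    (hA : ∀ i, (A i).Normal) (hC : C.Normal) : ⁅⨆ i, A i, C⁆ ≤ ⨆ i, ⁅A i, C⁆ := by
  have hR : (⨆ i, ⁅A i, C⁆ : Subgroup G).Normal := by
    have : ∀ i, (⁅A i, C⁆ : Subgroup G).Normal := fun i => by
      have := hA i
      exact Subgroup.commutator_normal _ _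
    exact Subgroup.iSup_normal _
  rw [Subgroup.commutator_le]
  intro g hg c hc
  refine Subgroup.iSup_induction (C := fun g => ⁅g, c⁆ ∈ (⨆ i, ⁅A i, C⁆ : Subgroup G)) A hg ?_ ?_ ?_
  · intro i x hx
    exact Subgroup.mem_iSup_of_mem i (Subgroup.commutator_mem_commutator hx hc)
  · simp
  · intro x y hx hy
    have : ⁅x * y, c⁆ = x * ⁅y, c⁆ * x⁻¹ * ⁅x, c⁆ := by
      simp only [commutatorElement_def]; group
    rw [this]
    exact mul_mem (hR.conj_mem _ hy x) hx

theorem comm_iSup_right {ι : Sort*} (A : ι → Subgroup G) (C : Subgroup G)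
    (hA : ∀ i, (A i).Normal) (hC : C.Normal) : ⁅C, ⨆ i, A i⁆ ≤ ⨆ i, ⁅C, A i⁆ := by
  rw [Subgroup.commutator_comm]
  refine (comm_iSup_left A C hA hC).trans ?_
  refine iSup_mono fun i => ?_
  rw [Subgroup.commutator_comm]

open Classical in
/-- change the subgroup at one leaf -/
noncomputable def upd {w : W} (f : Lf w → Subgroup G) (j : Lf w) (X : Subgroup G) :
    Lf w → Subgroup G := fun i => if i = j then X else f i

theorem upd_same {w : W} (f : Lf w → Subgroup G) (j : Lf w) (X : Subgroup G) :
    upd f j X j = X := by simp [upd]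

theorem upd_ne {w : W} (f : Lf w → Subgroup G) (j : Lf w) (X : Subgroup G) (i : Lf w)
    (h : i ≠ j) : upd f j X i = f i := by simp [upd, h]

theorem upd_normal {w : W} (f : Lf w → Subgroup G) (j : Lf w) (X : Subgroup G)
    (hf : ∀ i, (f i).Normal) (hX : X.Normal) : ∀ i, (upd f j X i).Normal := by
  intro i
  by_cases h : i = j
  · subst h; rw [upd_same]; exact hX
  · rw [upd_ne _ _ _ _ h]; exact hf i

theorem upd_ll {w₁ w₂ : W} (f : Lf (W.c w₁ w₂) → Subgroup G) (j : Lf w₁) (X : Subgroup G) :
    (fun i : Lf w₁ => upd f (Sum.inl j : Lf (W.c w₁ w₂)) X (Sum.inl i)) =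
      upd (fun i => f (Sum.inl i)) j X := by
  funext i
  by_cases h : i = j
  · subst h; rw [upd_same, upd_same]
  · rw [upd_ne _ _ _ _ h, upd_ne]
    intro hh
    exact h (Sum.inl_injective hh)

theorem upd_rr {w₁ w₂ : W} (f : Lf (W.c w₁ w₂) → Subgroup G) (j : Lf w₂) (X : Subgroup G) :
    (fun i : Lf w₂ => upd f (Sum.inr j : Lf (W.c w₁ w₂)) X (Sum.inr i)) =
      upd (fun i => f (Sum.inr i)) j X := by
  funext i
  by_cases h : i = j
  · subst h; rw [upd_same, upd_same]
  · rw [upd_ne _ _ _ _ h, upd_ne]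
    intro hh
    exact h (Sum.inr_injective hh)

theorem upd_lr {w₁ w₂ : W} (f : Lf (W.c w₁ w₂) → Subgroup G) (j : Lf w₁) (X : Subgroup G) :
    (fun i : Lf w₂ => upd f (Sum.inl j : Lf (W.c w₁ w₂)) X (Sum.inr i)) =
      fun i => f (Sum.inr i) := by
  funext i
  rw [upd_ne]
  intro hh
  cases hh

theorem upd_rl {w₁ w₂ : W} (f : Lf (W.c w₁ w₂) → Subgroup G) (j : Lf w₂) (X : Subgroup G) :
    (fun i : Lf w₁ => upd f (Sum.inr j : Lf (W.c w₁ w₂)) X (Sum.inl i)) =
      fun i => f (Sum.inl i) := by
  funext i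
  rw [upd_ne]
  intro hh
  cases hh

/-- distributivity at one leaf -/
theorem evl_iSup {ι : Type*} (A : ι → Subgroup G) (hA : ∀ i, (A i).Normal) :
    ∀ (w : W) (f : Lf w → Subgroup G) (j : Lf w), (∀ i, (f i).Normal) →
    evl w (upd f j (⨆ k, A k)) ≤ ⨆ k, evl w (upd f j (A k))
  | .x, f, j, hf => by
      change upd f j (⨆ k, A k) j ≤ ⨆ k, upd f j (A k) j
      rw [upd_same]
      exact iSup_mono fun k => le_of_eq (upd_same f j (A k)).symm
  | .c w₁ w₂, f, Sum.inl j, hf => by
      have ih := evl_iSup A hA w₁ (fun i => f (Sum.inl i)) j fun i => hf _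
      change ⁅evl w₁ (fun i => upd f (Sum.inl j : Lf (W.c w₁ w₂)) (⨆ k, A k) (Sum.inl i)),
        evl w₂ (fun i => upd f (Sum.inl j : Lf (W.c w₁ w₂)) (⨆ k, A k) (Sum.inr i))⁆ ≤
        ⨆ k, ⁅evl w₁ (fun i => upd f (Sum.inl j : Lf (W.c w₁ w₂)) (A k) (Sum.inl i)),
        evl w₂ (fun i => upd f (Sum.inl j : Lf (W.c w₁ w₂)) (A k) (Sum.inr i))⁆
      simp only [upd_ll, upd_lr]
      refine (Subgroup.commutator_mono ih le_rfl).trans ?_
      refine comm_iSup_left _ _ (fun k => evl_normal _ _ (upd_normal _ _ _ (fun i => hf _) (hA k)))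
        (evl_normal _ _ fun i => hf _)
  | .c w₁ w₂, f, Sum.inr j, hf => by
      have ih := evl_iSup A hA w₂ (fun i => f (Sum.inr i)) j fun i => hf _
      change ⁅evl w₁ (fun i => upd f (Sum.inr j : Lf (W.c w₁ w₂)) (⨆ k, A k) (Sum.inl i)),
        evl w₂ (fun i => upd f (Sum.inr j : Lf (W.c w₁ w₂)) (⨆ k, A k) (Sum.inr i))⁆ ≤
        ⨆ k, ⁅evl w₁ (fun i => upd f (Sum.inr j : Lf (W.c w₁ w₂)) (A k) (Sum.inl i)),
        evl w₂ (fun i => upd f (Sum.inr j : Lf (W.c w₁ w₂)) (A k) (Sum.inr i))⁆
      simp only [upd_rr, upd_rl]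
      refine (Subgroup.commutator_mono le_rfl ih).trans ?_
      refine comm_iSup_right _ _ (fun k => evl_normal _ _ (upd_normal _ _ _ (fun i => hf _) (hA k)))
        (evl_normal _ _ fun i => hf _)

/-- finitely many conjugates suffice for the join of all automorphic images -/
theorem exists_finset (M : Subgroup G) (hM : M.index ≠ 0) :
    ∃ T : Finset (G ≃* G), 1 ∈ T ∧ ∀ ψ : G ≃* G,
      M.map (ψ : G →* G) ≤ ⨆ φ : T, M.map ((φ : G ≃* G) : G →* G) := by
  classical
  let J : Finset (G ≃* G) → Subgroup G := fun T => ⨆ φ : T, M.map ((φ : G ≃* G) : G →* G)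
  have hJ : ∀ T : Finset (G ≃* G), 1 ∈ T → M ≤ J T := by
    intro T hT
    have h1 : M.map (((⟨1, hT⟩ : T) : G ≃* G) : G →* G) ≤ J T := le_iSup
      (fun φ : T => M.map ((φ : G ≃* G) : G →* G)) ⟨1, hT⟩
    refine le_trans (le_of_eq ?_) h1
    ext x
    simp
  have hJi : ∀ T : Finset (G ≃* G), 1 ∈ T → (J T).index ≠ 0 := fun T hT h0 =>
    hM (Nat.eq_zero_of_zero_dvd (h0 ▸ Subgroup.index_dvd_of_le (hJ T hT)))
  have hex : ∃ n : ℕ, ∃ T : Finset (G ≃* G), 1 ∈ T ∧ (J T).index = n :=
    ⟨(J {1}).index, {1}, by simp, rfl⟩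
  obtain ⟨T, hT1, hTn⟩ := Nat.find_spec hex
  have hmin : ∀ T' : Finset (G ≃* G), 1 ∈ T' → (J T).index ≤ (J T').index := by
    intro T' h'
    rw [hTn]
    exact Nat.find_min' hex ⟨T', h', rfl⟩
  refine ⟨T, hT1, fun ψ => ?_⟩
  have h2 : J T ≤ J (insert ψ T) := by
    refine iSup_le fun φ => ?_
    exact le_iSup (fun φ : (insert ψ T : Finset (G ≃* G)) => M.map ((φ : G ≃* G) : G →* G))
      ⟨φ.1, Finset.mem_insert_of_mem φ.2⟩
  have h3 : M.map (ψ : G →* G) ≤ J (insert ψ T) :=
    le_iSup (fun φ : (insert ψ T : Finset (G ≃* G)) => M.map ((φ : G ≃* G) : G →* G))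
      ⟨ψ, Finset.mem_insert_self _ _⟩
  have h4 : J T = J (insert ψ T) := by
    have hi : (J (insert ψ T)).index ≠ 0 := hJi _ (Finset.mem_insert_of_mem hT1)
    have hle := hmin (insert ψ T) (Finset.mem_insert_of_mem hT1)
    have hrel : (J T).relIndex (J (insert ψ T)) * (J (insert ψ T)).index = (J T).index :=
      Subgroup.relIndex_mul_index h2
    have h5 : (J T).relIndex (J (insert ψ T)) = 1 := by
      have hpos : (J T).relIndex (J (insert ψ T)) ≠ 0 := by
        intro h0
        rw [h0, zero_mul] at hrel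
        exact hJi T hT1 hrel.symm
      have : (J T).relIndex (J (insert ψ T)) * (J (insert ψ T)).index ≤
          1 * (J (insert ψ T)).index := by rw [hrel, one_mul]; exact hle
      have := Nat.le_of_mul_le_mul_right this (Nat.pos_of_ne_zero hi)
      omega
    exact le_antisymm h2 (Subgroup.relIndex_eq_one.mp h5)
  change _ ≤ J T
  rw [h4]
  exact h3

theorem main (w : W) (K : Subgroup G) (hK : K.Normal) (hKi : K.index ≠ 0) (hw : w.ev K = ⊥) :
    ∃ C : Subgroup G, C.Characteristic ∧ C.index ≠ 0 ∧ w.ev C = ⊥ := by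
  classical
  let : Fintype (Lf w) := Fintype.ofFinite _
  have key : ∀ s : Finset (Lf w), ∃ P M : Subgroup G, P.Characteristic ∧ P.index ≠ 0 ∧
      M.Normal ∧ M.index ≠ 0 ∧ evl w (fun i => if i ∈ s then P else M) = ⊥ := by
    intro s
    induction s using Finset.induction_on with
    | empty =>
        refine ⟨⊤, K, inferInstance, by simp, hK, hKi, ?_⟩
        simp only [Finset.notMem_empty, if_false]
        rw [evl_const, hw]
    | insert j s hj ih =>
        obtain ⟨P, M, hP, hPi, hM, hMi, hev⟩ := ih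
        obtain ⟨T, hT1, hT⟩ := exists_finset M hMi
        let A : T → Subgroup G := fun φ => M.map ((φ : G ≃* G) : G →* G)
        have hAn : ∀ φ : T, (A φ).Normal := fun φ =>
          Subgroup.Normal.map hM _ (φ : G ≃* G).surjective
        have hAi : ∀ φ : T, (A φ).index ≠ 0 := fun φ => by
          have := Subgroup.index_map_equiv M (φ : G ≃* G)
          change (M.map ((φ : G ≃* G) : G →* G)).index ≠ 0
          rw [this]; exact hMi
        let Q : Subgroup G := ⨆ φ : G ≃* G, M.map (φ : G →* G)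
        have hQle : Q ≤ ⨆ φ, A φ := iSup_le fun ψ => hT ψ
        have hQc : Q.Characteristic := by
          rw [Subgroup.characteristic_iff_map_le]
          intro ψ
          change Subgroup.map ψ.toMonoidHom (⨆ φ : G ≃* G, M.map (φ : G →* G)) ≤ Q
          rw [Subgroup.map_iSup]
          refine iSup_le fun φ => ?_
          rw [Subgroup.map_map]
          exact le_iSup (fun φ : G ≃* G => M.map (φ : G →* G)) (φ.trans ψ)
        have hQi : Q.index ≠ 0 := by
          have h1 : M ≤ Q := by
            have h1 : M.map ((1 : G ≃* G) : G →* G) ≤ Q := le_iSup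
              (fun φ : G ≃* G => M.map (φ : G →* G)) 1
            refine le_trans (le_of_eq ?_) h1
            ext x
            simp
          exact fun h0 => hMi (Nat.eq_zero_of_zero_dvd (h0 ▸ Subgroup.index_dvd_of_le h1))
        let M' : Subgroup G := ⨅ φ, A φ
        have hM'n : M'.Normal := Subgroup.normal_iInf_normal hAn
        have hM'i : M'.index ≠ 0 := by
          have : M'.FiniteIndex := Subgroup.finiteIndex_iInf fun φ => ⟨hAi φ⟩
          exact this.index_ne_zero
        refine ⟨P ⊓ Q, M', ?_, ?_, hM'n, hM'i, ?_⟩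
        · rw [Subgroup.characteristic_iff_le_comap]
          rw [Subgroup.characteristic_iff_le_comap] at hP hQc
          intro ψ x hx
          exact ⟨hP ψ hx.1, hQc ψ hx.2⟩
        · exact Subgroup.index_inf_ne_zero hPi hQi
        · rw [eq_bot_iff]
          have hPn : P.Normal := Subgroup.normal_of_characteristic P
          have hfn : ∀ i : Lf w, (if i ∈ s then P else M' : Subgroup G).Normal := by
            intro i
            by_cases h : i ∈ s
            · rw [if_pos h]; exact hPn
            · rw [if_neg h]; exact hM'n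
          have h1 : evl w (fun i => if i ∈ insert j s then P ⊓ Q else M') ≤
              evl w (upd (fun i => if i ∈ s then P else M') j (⨆ φ, A φ)) := by
            refine evl_mono _ _ _ fun i => ?_
            by_cases h : i = j
            · subst h
              rw [upd_same]
              simp only [Finset.mem_insert_self, if_true]
              exact inf_le_right.trans hQle
            · rw [upd_ne _ _ _ _ h]
              simp only [Finset.mem_insert, h, false_or]
              by_cases h' : i ∈ s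
              · rw [if_pos h', if_pos h']; exact inf_le_left
              · rw [if_neg h', if_neg h']
          refine h1.trans ((evl_iSup A hAn w _ j hfn).trans ?_)
          refine iSup_le fun φ => ?_
          have h2 : evl w (upd (fun i => if i ∈ s then P else M') j (A φ)) ≤
              evl w (fun i => (if i ∈ s then P else M : Subgroup G).map
                ((φ : G ≃* G) : G →* G)) := by
            refine evl_mono _ _ _ fun i => ?_
            by_cases h : i = j
            · subst h
              rw [upd_same, if_neg hj]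
            · rw [upd_ne _ _ _ _ h]
              by_cases h' : i ∈ s
              · rw [if_pos h', if_pos h']
                exact (Subgroup.characteristic_iff_le_map.mp hP) (φ : G ≃* G)
              · rw [if_neg h', if_neg h']
                exact iInf_le A φ
          refine h2.trans ?_
          rw [← evl_map, hev, Subgroup.map_bot]
  obtain ⟨P, M, hP, hPi, -, -, hev⟩ := key Finset.univ
  refine ⟨P, hP, hPi, ?_⟩
  simp only [Finset.mem_univ, if_true] at hev
  rw [evl_const] at hev
  exact hev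

end Pool.Agent.Work.MP_3fbbd3_h11.KMC

namespace Pool.Agent.Work.MP_3fbbd3_h11

universe u

theorem blk_KMC : Stmt_KMC.{u} := by
  intro G _ w K hK hKi hw
  exact KMC.main w K hK hKi hw

end Pool.Agent.Work.MP_3fbbd3_h11
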