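import Pool.Agent.Work.MP_3fbbd3_h11.Interface

/-!
Block POLY: polynomial functions into a nilpotent group and idempotent ultrafilters.
-/

set_option linter.unusedSectionVars false

namespace Pool.Agent.Work.MP_3fbbd3_h11

open Subgroup
open scoped commutatorElement

universe u

namespace POLY

/-- the three subgroups lemma modulo a normal subgroup -/
lemma three {G : Type u} [Group G] (N : Subgroup G) [N.Normal] (H₁ H₂ H₃ : Subgroup G)
    (h1 : ⁅⁅H₂, H₃⁆, H₁⁆ ≤ N) (h2 : ⁅⁅H₃, H₁⁆, H₂⁆ ≤ N) : ⁅⁅H₁, H₂⁆, H₃⁆ ≤ N := by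
  have key : ∀ K : Subgroup G, K ≤ N ↔ K.map (QuotientGroup.mk' N) = ⊥ := by
    intro K
    rw [Subgroup.map_eq_bot_iff, QuotientGroup.ker_mk']
  rw [key, map_commutator, map_commutator] at h1 h2 ⊢
  exact commutator_commutator_eq_bot_of_rotate h1 h2

lemma lcs_comm (G : Type u) [Group G] : ∀ j i : ℕ,
    ⁅(⊤ : Subgroup G).lowerCentralSeries i, (⊤ : Subgroup G).lowerCentralSeries j⁆ ≤
      (⊤ : Subgroup G).lowerCentralSeries (i + j + 1) := by
  intro j
  induction j with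
  | zero =>
    intro i
    rw [Subgroup.lowerCentralSeries_zero, add_zero, Subgroup.lowerCentralSeries_succ]
  | succ j ih =>
    intro i
    rw [Subgroup.lowerCentralSeries_succ _ j, commutator_comm]
    refine three _ _ _ _ ?_ ?_
    · rw [commutator_comm ⊤, ← Subgroup.lowerCentralSeries_succ]
      refine (ih (i + 1)).trans (le_of_eq ?_)
      congr 1
      omega
    · refine (commutator_mono (ih i) le_rfl).trans (le_of_eq ?_)
      rw [← Subgroup.lowerCentralSeries_succ]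
      congr 1

/-- filtrations -/
structure Filt {H : Type u} [Group H] (F : ℕ → Subgroup H) : Prop where
  anti : ∀ s, F (s + 1) ≤ F s
  comm : ∀ s t, ⁅F s, F t⁆ ≤ F (s + t)

section filt
variable {H : Type u} [Group H] {F : ℕ → Subgroup H}

lemma Filt.le (hF : Filt F) {s t : ℕ} (h : s ≤ t) : F t ≤ F s := by
  obtain ⟨k, rfl⟩ := Nat.exists_eq_add_of_le h
  induction k with
  | zero => exact le_refl _
  | succ k ih => exact (hF.anti (s + k)).trans (ih (by omega))

lemma Filt.mem (hF : Filt F) {s t k : ℕ} (h : k ≤ s + t) {f g : H} (hf : f ∈ F s) (hg : g ∈ F t) :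
    ⁅f, g⁆ ∈ F k :=
  hF.le h (hF.comm s t (commutator_mem_commutator hf hg))

lemma Filt.conj (hF : Filt F) {s t : ℕ} {f g : H} (hf : f ∈ F s) (hg : g ∈ F t) :
    f * g * f⁻¹ ∈ F t := by
  have h : f * g * f⁻¹ = ⁅f, g⁆ * g := by
    rw [commutatorElement_def]
    group
  rw [h]
  exact (F t).mul_mem (hF.mem (by omega) hf hg) hg

/-- the derived filtration -/
def der {T : Type u} (hF : Filt F) (L : T → H →* H) (s : ℕ) : Subgroup H where
  carrier := {f | f ∈ F s ∧ ∀ y, L y f * f⁻¹ ∈ F (s + 1)}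
  one_mem' := by
    refine ⟨(F s).one_mem, fun y => ?_⟩
    rw [map_one, inv_one, mul_one]
    exact (F (s + 1)).one_mem
  mul_mem' := by
    rintro f g ⟨hf, hf'⟩ ⟨hg, hg'⟩
    refine ⟨(F s).mul_mem hf hg, fun y => ?_⟩
    have h : L y (f * g) * (f * g)⁻¹ = (L y f * f⁻¹) * (f * (L y g * g⁻¹) * f⁻¹) := by
      rw [map_mul]
      group
    rw [h]
    exact (F (s + 1)).mul_mem (hf' y) (hF.conj hf (hg' y))
  inv_mem' := by
    rintro f ⟨hf, hf'⟩
    refine ⟨(F s).inv_mem hf, fun y => ?_⟩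
    have h : L y f⁻¹ * f⁻¹⁻¹ = f⁻¹ * (L y f * f⁻¹)⁻¹ * f⁻¹⁻¹ := by
      rw [map_inv]
      group
    rw [h]
    exact hF.conj ((F s).inv_mem hf) ((F (s + 1)).inv_mem (hf' y))

lemma mem_der {T : Type u} {hF : Filt F} {L : T → H →* H} {s : ℕ} {f : H} :
    f ∈ der hF L s ↔ f ∈ F s ∧ ∀ y, L y f * f⁻¹ ∈ F (s + 1) := Iff.rfl

lemma der_filt {T : Type u} (hF : Filt F) (L : T → H →* H) : Filt (der hF L) := by
  refine ⟨fun s f hf => ?_, fun s t => ?_⟩
  · rw [mem_der] at hf ⊢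
    exact ⟨hF.anti s hf.1, fun y => hF.anti (s + 1) (hf.2 y)⟩
  · rw [commutator_le]
    intro f hf g hg
    rw [mem_der] at hf hg ⊢
    refine ⟨hF.mem le_rfl hf.1 hg.1, fun y => ?_⟩
    set u := L y f * f⁻¹ with hu
    set v := L y g * g⁻¹ with hv
    have eu : L y f = u * f := by rw [hu]; group
    have ev : L y g = v * g := by rw [hv]; group
    have hu1 : u ∈ F (s + 1) := hf.2 y
    have hv1 : v ∈ F (t + 1) := hg.2 y
    set c := ⁅f, g⁆ with hc
    have hc1 : c ∈ F (s + t) := hF.mem le_rfl hf.1 hg.1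
    have h : L y c * c⁻¹ = (u * ⁅f, v⁆ * u⁻¹) * ⁅u * v, c⁆ * (c * ⁅u, v * g⁆ * c⁻¹) := by
      rw [hc, map_commutatorElement, eu, ev]
      simp only [commutatorElement_def]
      group
    rw [h]
    have e1 : u * ⁅f, v⁆ * u⁻¹ ∈ F (s + t + 1) :=
      hF.conj hu1 (hF.mem (by omega) hf.1 hv1)
    have e2 : ⁅u * v, c⁆ ∈ F (s + t + 1) :=
      hF.mem (s := 1) (t := s + t) (by omega)
        ((F 1).mul_mem (hF.le (by omega) hu1) (hF.le (by omega) hv1)) hc1
    have e3 : c * ⁅u, v * g⁆ * c⁻¹ ∈ F (s + t + 1) :=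
      hF.conj hc1 (hF.mem (s := s + 1) (t := t) (by omega) hu1
        ((F t).mul_mem (hF.anti t hv1) hg.1))
    exact (F (s + t + 1)).mul_mem ((F (s + t + 1)).mul_mem e1 e2) e3

end filt

section poly
variable (T : Type u) [Monoid T] (Γ : Type u) [Group Γ]

/-- the filtration of the group -/
def gam (s : ℕ) : Subgroup Γ := (⊤ : Subgroup Γ).lowerCentralSeries (s - 1)

lemma gam_filt : Filt (gam Γ) := by
  refine ⟨fun s => ?_, fun s t => ?_⟩
  · exact Subgroup.lowerCentralSeries_antitone _ (by omega)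
  · unfold gam
    rcases s with _ | s
    · rw [zero_add]
      exact commutator_le_right _ _
    · rcases t with _ | t
      · rw [add_zero]
        exact commutator_le_left _ _
      · refine (lcs_comm Γ _ _).trans (le_of_eq ?_)
        congr 1
        omega

/-- translations -/
def LL (y : T) : (T → Γ) →* (T → Γ) where
  toFun f := fun x => f (y * x)
  map_one' := rfl
  map_mul' _ _ := rfl

/-- functions with values in `gam s` -/
def Q0 (s : ℕ) : Subgroup (T → Γ) := Subgroup.pi Set.univ fun _ => gam Γ s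

lemma mem_Q0 {s : ℕ} {f : T → Γ} : f ∈ Q0 T Γ s ↔ ∀ x, f x ∈ gam Γ s := by
  unfold Q0
  rw [Subgroup.mem_pi]
  exact ⟨fun h x => h x (Set.mem_univ x), fun h x _ => h x⟩

lemma Q0_filt : Filt (Q0 T Γ) := by
  refine ⟨fun s f hf => ?_, fun s t => ?_⟩
  · rw [mem_Q0] at hf ⊢
    exact fun x => (gam_filt Γ).anti s (hf x)
  · rw [commutator_le]
    intro f hf g hg
    rw [mem_Q0] at hf hg ⊢
    intro x
    exact (gam_filt Γ).mem le_rfl (hf x) (hg x)

/-- the polynomial filtrations -/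
def QQ : ℕ → {F : ℕ → Subgroup (T → Γ) // Filt F}
  | 0 => ⟨Q0 T Γ, Q0_filt T Γ⟩
  | n + 1 => ⟨der (QQ n).2 (LL T Γ), der_filt (QQ n).2 (LL T Γ)⟩

lemma mem_QQ_succ {n s : ℕ} {f : T → Γ} : f ∈ (QQ T Γ (n + 1)).1 s ↔
    f ∈ (QQ T Γ n).1 s ∧ ∀ y, LL T Γ y f * f⁻¹ ∈ (QQ T Γ n).1 (s + 1) := Iff.rfl

lemma const_mem (c : Γ) : ∀ n s : ℕ, c ∈ gam Γ s → (fun _ => c : T → Γ) ∈ (QQ T Γ n).1 s := by
  intro n
  induction n with
  | zero =>
    intro s hc
    exact (mem_Q0 T Γ).2 fun _ => hc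
  | succ n ih =>
    intro s hc
    rw [mem_QQ_succ]
    refine ⟨ih s hc, fun y => ?_⟩
    have h : LL T Γ y (fun _ => c) * (fun _ => c : T → Γ)⁻¹ = 1 := by
      funext x
      exact mul_inv_cancel c
    rw [h]
    exact ((QQ T Γ n).1 (s + 1)).one_mem

lemma hom_mem (φ : T →* Γ) : ∀ n : ℕ, (fun x => φ x : T → Γ) ∈ (QQ T Γ n).1 0 := by
  intro n
  induction n with
  | zero =>
    exact (mem_Q0 T Γ).2 fun _ => Subgroup.mem_top _
  | succ n ih =>
    rw [mem_QQ_succ]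
    refine ⟨ih, fun y => ?_⟩
    have h : LL T Γ y (fun x => φ x) * (fun x => φ x : T → Γ)⁻¹ = fun _ => φ y := by
      funext x
      change φ (y * x) * (φ x)⁻¹ = φ y
      rw [map_mul, mul_inv_cancel_right]
    rw [h]
    exact const_mem T Γ (φ y) n 1 (Subgroup.mem_top _)

lemma value {U : Ultrafilter T} (hU : Idem U) : ∀ (n s : ℕ) (f : T → Γ) (b : Γ),
    f ∈ (QQ T Γ n).1 s → (∀ᶠ x in (U : Filter T), f x = b) → b * (f 1)⁻¹ ∈ gam Γ (s + n) := by
  intro n
  induction n with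
  | zero =>
    intro s f b hf hb
    obtain ⟨x, hx⟩ := hb.exists
    have hf' := (mem_Q0 T Γ).1 hf
    rw [← hx]
    exact (gam Γ (s + 0)).mul_mem (hf' x) ((gam Γ s).inv_mem (hf' 1))
  | succ n ih =>
    intro s f b hf hb
    rw [mem_QQ_succ] at hf
    obtain ⟨y, hy1, hy2⟩ := ((hU _ hb).and hb).exists
    have h1 : ∀ᶠ x in (U : Filter T), (LL T Γ y f * f⁻¹) x = 1 := by
      filter_upwards [hy1, hb] with x hx hx'
      change f (y * x) * (f x)⁻¹ = 1
      rw [hx, hx', mul_inv_cancel]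
    have h2 := ih (s + 1) _ 1 (hf.2 y) h1
    have h3 : (LL T Γ y f * f⁻¹) 1 = b * (f 1)⁻¹ := by
      change f (y * 1) * (f 1)⁻¹ = b * (f 1)⁻¹
      rw [mul_one, hy2]
    rw [h3, one_mul] at h2
    have h4 := (gam Γ (s + 1 + n)).inv_mem h2
    rw [inv_inv] at h4
    have h5 : s + (n + 1) = s + 1 + n := by omega
    rw [h5]
    exact h4

end poly

end POLY

open POLY in
theorem blk_POLY : Stmt_POLY.{u} := by
  intro T _ Γ _ _ U hU f hf a ha
  obtain ⟨n, hn⟩ := (Subgroup.nilpotent_iff_lowerCentralSeries (G := Γ)).1 inferInstance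
  have hmem : f ∈ (QQ T Γ (n + 1)).1 0 := by
    refine (Subgroup.closure_le _).2 ?_ hf
    rintro g (⟨φ, hφ⟩ | ⟨c, hc⟩)
    · have h : g = fun x => φ x := funext hφ
      rw [h]
      exact hom_mem T Γ φ (n + 1)
    · have h : g = fun _ => c := funext hc
      rw [h]
      exact const_mem T Γ c (n + 1) 0 (Subgroup.mem_top _)
  have h := value T Γ hU (n + 1) 0 f a hmem ha
  have h2 : gam Γ (0 + (n + 1)) = ⊥ := by
    unfold gam
    rw [← hn]
    congr 1
    omega
  rw [h2, Subgroup.mem_bot, mul_inv_eq_one] at h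
  exact h.symm

end Pool.Agent.Work.MP_3fbbd3_h11
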