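import Mathlib
import Pool.Agent.Work.MP_3fbbd3_h11.Interface

/-!
Block FITT for MP_3fbbd3_al: the join of two normal nilpotent subgroups is nilpotent.
-/

namespace Pool.Agent.Work.MP_3fbbd3_h11.FITT

open Subgroup
open scoped commutatorElement

universe u

variable {G : Type u} [Group G]

/-- the elements of `G` whose commutators with `K` are in the normal subgroup `D` -/
def zmod (K D : Subgroup G) [D.Normal] : Subgroup G :=
  (centralizer ((K.map (QuotientGroup.mk' D) : Subgroup (G ⧸ D)) : Set (G ⧸ D))).comap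
    (QuotientGroup.mk' D)

theorem le_zmod_iff (H K D : Subgroup G) [D.Normal] : H ≤ zmod K D ↔ ⁅H, K⁆ ≤ D := by
  unfold zmod
  rw [← map_le_iff_le_comap, ← commutator_eq_bot_iff_le_centralizer, ← map_commutator,
    Subgroup.map_eq_bot_iff, QuotientGroup.ker_mk']

theorem iSup_commutator_le {ι : Type*} (H : ι → Subgroup G) (K D : Subgroup G) [D.Normal]
    (h : ∀ i, ⁅H i, K⁆ ≤ D) : ⁅⨆ i, H i, K⁆ ≤ D := by
  rw [← le_zmod_iff]
  exact iSup_le fun i => (le_zmod_iff _ _ _).2 (h i)

theorem commutator_sup_le (H K L D : Subgroup G) [D.Normal]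
    (h1 : ⁅H, K⁆ ≤ D) (h2 : ⁅H, L⁆ ≤ D) : ⁅H, K ⊔ L⁆ ≤ D := by
  rw [commutator_comm, ← le_zmod_iff]
  refine sup_le ?_ ?_
  · rw [le_zmod_iff, commutator_comm]; exact h1
  · rw [le_zmod_iff, commutator_comm]; exact h2

/-- the shifted lower central series -/
def LS (A : Subgroup G) : ℕ → Subgroup G
  | 0 => ⊤
  | n + 1 => A.lowerCentralSeries n

theorem LS_normal (A : Subgroup G) [A.Normal] (n : ℕ) : (LS A n).Normal := by
  cases n with
  | zero => exact (inferInstance : (⊤ : Subgroup G).Normal)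
  | succ n => exact Subgroup.lowerCentralSeries_normal A n

theorem LS_comm (A : Subgroup G) [A.Normal] (n : ℕ) : ⁅LS A n, A⁆ ≤ LS A (n + 1) := by
  cases n with
  | zero => exact commutator_le_right _ _
  | succ n => exact le_rfl

theorem LS_anti (A : Subgroup G) (n m : ℕ) (h : n + 1 ≤ m) (hn : A.lowerCentralSeries n = ⊥) :
    LS A m = ⊥ := by
  obtain ⟨k, rfl⟩ : ∃ k, m = k + 1 := ⟨m - 1, by omega⟩
  exact le_bot_iff.1 (le_trans (Subgroup.lowerCentralSeries_antitone A (by omega : n ≤ k)) hn.le)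

/-- the bound -/
def DD (A B : Subgroup G) (k : ℕ) : Subgroup G :=
  ⨆ x : {x : ℕ × ℕ // x.1 + x.2 = k + 1}, LS A x.1.1 ⊓ LS B x.1.2

theorem DD_normal (A B : Subgroup G) [A.Normal] [B.Normal] (k : ℕ) : (DD A B k).Normal := by
  unfold DD
  have h : ∀ x : {x : ℕ × ℕ // x.1 + x.2 = k + 1}, (LS A x.1.1 ⊓ LS B x.1.2).Normal := by
    intro x
    have := LS_normal A x.1.1
    have := LS_normal B x.1.2
    infer_instance
  infer_instance

theorem le_DD (A B : Subgroup G) (k i j : ℕ) (h : i + j = k + 1) :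
    LS A i ⊓ LS B j ≤ DD A B k :=
  le_iSup (fun x : {x : ℕ × ℕ // x.1 + x.2 = k + 1} => LS A x.1.1 ⊓ LS B x.1.2) ⟨(i, j), h⟩

theorem lcs_le_DD (A B : Subgroup G) [A.Normal] [B.Normal] (k : ℕ) :
    (A ⊔ B).lowerCentralSeries k ≤ DD A B k := by
  induction k with
  | zero =>
    rw [Subgroup.lowerCentralSeries_zero]
    refine sup_le ?_ ?_
    · refine le_trans ?_ (le_DD A B 0 1 0 (by norm_num))
      exact le_inf le_rfl le_top
    · refine le_trans ?_ (le_DD A B 0 0 1 (by norm_num))
      exact le_inf le_top le_rfl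
  | succ k ih =>
    rw [Subgroup.lowerCentralSeries_succ]
    have := DD_normal A B (k + 1)
    refine le_trans (commutator_mono ih le_rfl) ?_
    refine iSup_commutator_le _ _ _ ?_
    rintro ⟨⟨i, j⟩, h⟩
    have hi := LS_normal A i
    have hj := LS_normal B j
    simp only at h ⊢
    refine commutator_sup_le _ _ _ _ ?_ ?_
    · refine le_trans ?_ (le_DD A B (k + 1) (i + 1) j (by omega))
      refine le_inf (le_trans (commutator_mono inf_le_left le_rfl) (LS_comm A i)) ?_
      exact le_trans (commutator_mono inf_le_right le_rfl) (commutator_le_left _ _)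
    · refine le_trans ?_ (le_DD A B (k + 1) i (j + 1) (by omega))
      refine le_inf ?_ (le_trans (commutator_mono inf_le_right le_rfl) (LS_comm B j))
      exact le_trans (commutator_mono inf_le_left le_rfl) (commutator_le_left _ _)

end Pool.Agent.Work.MP_3fbbd3_h11.FITT

namespace Pool.Agent.Work.MP_3fbbd3_h11

open FITT Subgroup

universe u

theorem blk_FITT : Stmt_FITT.{u} := by
  intro G _ A B hA hB nA nB
  obtain ⟨n, hn⟩ := (Subgroup.isNilpotent_iff_lowerCentralSeries A).1 nA
  obtain ⟨m, hm⟩ := (Subgroup.isNilpotent_iff_lowerCentralSeries B).1 nB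
  refine Subgroup.isNilpotent_of_lowerCentralSeries_eq_bot (n := n + m + 1) ?_
  refine le_bot_iff.1 (le_trans (lcs_le_DD A B (n + m + 1)) ?_)
  refine iSup_le ?_
  rintro ⟨⟨i, j⟩, h⟩
  simp only at h ⊢
  rcases le_or_gt (n + 1) i with hi | hi
  · rw [LS_anti A n i hi hn]; exact inf_le_left
  · rw [LS_anti B m j (by omega) hm]; exact inf_le_right

end Pool.Agent.Work.MP_3fbbd3_h11
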