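import Pool.Agent.Work.MP_3fbbd3_h11.Interface

/-! Block GRUN: Grün's lemma relative to a normal subgroup. -/

namespace Pool.Agent.Work.MP_3fbbd3_h11

open Subgroup
open scoped commutatorElement

universe u

theorem blk_GRUN : Stmt_GRUN.{u} := by
  intro G _ hp R hR y hy
  have hperf : commutator (G ⧸ R) = ⊤ := by
    have h1 : (commutator G).map (QuotientGroup.mk' R) = commutator (G ⧸ R) := by
      rw [commutator_def, commutator_def, map_commutator,
        map_top_of_surjective _ (QuotientGroup.mk'_surjective R)]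
    rw [← h1, hp, map_top_of_surjective _ (QuotientGroup.mk'_surjective R)]
  have hcen : ∀ q : G ⧸ R, ⁅(QuotientGroup.mk' R y), q⁆ ∈ center (G ⧸ R) := by
    intro q
    rw [mem_center_iff]
    intro r
    obtain ⟨g, rfl⟩ := QuotientGroup.mk'_surjective R q
    obtain ⟨h, rfl⟩ := QuotientGroup.mk'_surjective R r
    have h1 : QuotientGroup.mk' R ⁅⁅y, g⁆, h⁆ = 1 := by
      rw [QuotientGroup.mk'_apply, QuotientGroup.eq_one_iff]
      exact hy g h
    rw [map_commutatorElement, map_commutatorElement,
      commutatorElement_eq_one_iff_mul_comm] at h1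
    exact h1.symm
  let f : (G ⧸ R) →* center (G ⧸ R) := MonoidHom.mk' (fun q => ⟨_, hcen q⟩) (by
    intro a b
    ext
    have h1 := (mem_center_iff.1 (hcen b)) a
    have h2 : ⁅QuotientGroup.mk' R y, a * b⁆ =
        ⁅QuotientGroup.mk' R y, a⁆ * (a * ⁅QuotientGroup.mk' R y, b⁆ * a⁻¹) := by
      simp only [commutatorElement_def]; group
    simp only [coe_mul]
    rw [h2, h1]
    group)
  have hker : f.ker = ⊤ := by
    rw [← top_le_iff, ← hperf, commutator_def, commutator_le]
    intro a _ b _
    rw [MonoidHom.mem_ker, map_commutatorElement, commutatorElement_eq_one_iff_mul_comm]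
    ext
    exact (mem_center_iff.1 (f b).2 _)
  intro g
  have h1 : f (QuotientGroup.mk' R g) = 1 := by
    rw [← MonoidHom.mem_ker, hker]
    exact mem_top _
  have h2 : ⁅QuotientGroup.mk' R y, QuotientGroup.mk' R g⁆ = 1 := congrArg Subtype.val h1
  rw [← map_commutatorElement, QuotientGroup.mk'_apply, QuotientGroup.eq_one_iff] at h2
  exact h2

end Pool.Agent.Work.MP_3fbbd3_h11
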