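import Pool.Agent.Work.MP_3fbbd3_h11.ModData

/-! Positions, generic elements and the two steps of the main induction. -/

namespace Pool.Agent.Work.MP_3fbbd3_h11

open Subgroup Filter
open scoped commutatorElement

universe u

/-- the environment: what the ultrafilters and the Khukhro-Makarenko argument give -/
structure Env (G : Type u) [Group G] (a : G) : Prop where
  perf : commutator G = ⊤
  lf : ∀ s : Set G, s.Finite → ((Subgroup.closure s : Subgroup G) : Set G).Finite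
  ult : ∀ N : Subgroup G, ∃ U : Ultrafilter G, JJ N U
  avoid : ∀ N ∈ NN G, ∀ U : Ultrafilter G, JJ N U → ∀ L : Subgroup G, (L : Set G).Finite →
    a ∉ L → ∀ᶠ x in (U : Filter G), a ∉ L ⊔ zpowers x
  full : ∀ S : Subgroup G, (∀ N ∈ NN G, S.relIndex N ≠ 0) → S = ⊤

/-- `Z` is a position above `Z₀` -/
def Pos {G : Type u} [Group G] (a : G) (Z₀ Z : Subgroup G) : Prop :=
  (Z : Set G).Finite ∧ Z₀ ≤ Z ∧ a ∉ Z

theorem Pos.trans {G : Type u} [Group G] {a : G} {Z₀ Z₁ Z₂ : Subgroup G} (h₁ : Pos a Z₀ Z₁)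
    (h₂ : Pos a Z₁ Z₂) : Pos a Z₀ Z₂ := ⟨h₂.1, h₁.2.1.trans h₂.2.1, h₂.2.2⟩

theorem Pos.self {G : Type u} [Group G] {a : G} {Z₀ Z₁ : Subgroup G} (h₁ : Pos a Z₀ Z₁) :
    Pos a Z₁ Z₁ := ⟨h₁.1, le_rfl, h₁.2.2⟩

theorem W.ev_mono {G : Type u} [Group G] (w : W) {X Y : Subgroup G} (h : X ≤ Y) :
    w.ev X ≤ w.ev Y := by
  induction w with
  | x => exact h
  | c w₁ w₂ h₁ h₂ => exact commutator_mono h₁ h₂

variable {G : Type u} [Group G] {a : G}

theorem Env.gen (E : Env G a) {Z₀ Z : Subgroup G} (hZ : Pos a Z₀ Z) {N : Subgroup G}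
    (hN : N ∈ NN G) {U : Ultrafilter G} (hU : JJ N U) :
    ∀ᶠ x in (U : Filter G), Pos a Z (Z ⊔ zpowers x) := by
  filter_upwards [E.avoid N hN U hU Z hZ.1 hZ.2.2] with x hx
  refine ⟨?_, le_sup_left, hx⟩
  have h1 : Z ⊔ zpowers x ≤ Subgroup.closure ((Z : Set G) ∪ {x}) := by
    rw [sup_le_iff, zpowers_le]
    refine ⟨fun z hz => subset_closure (Or.inl hz), subset_closure (Or.inr rfl)⟩
  exact (E.lf _ (hZ.1.union (Set.finite_singleton x))).subset h1

/-- a subgroup which belongs to all the ultrafilters is the whole group -/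
theorem Env.full' (E : Env G a) (S : Subgroup G)
    (h : ∀ N ∈ NN G, ∀ U : Ultrafilter G, JJ N U → ∀ᶠ x in (U : Filter G), x ∈ S) : S = ⊤ := by
  refine E.full S fun N hN hS => ?_
  obtain ⟨U, hU⟩ := E.ult N
  have h1 := h N hN U hU
  have h2 : ∀ᶠ x in (U : Filter G), x ∈ N := hU.2.1
  refine hU.2.2 (S ⊓ N) 1 inf_le_right (by rwa [inf_relIndex_right]) ?_
  filter_upwards [h1, h2] with x hx hx'
  rw [inv_one, one_mul]
  exact ⟨hx, hx'⟩

/-- the principle `T_w` -/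
def Tw (a : G) (w : W) : Prop := ∀ (R Z₀ Z₁ : Subgroup G), R.Normal → Pos a Z₀ Z₁ →
  (∀ Z, Pos a Z₁ Z → w.ev Z ≤ R) → R = ⊤

theorem Env.tw_x (E : Env G a) : Tw a W.x := by
  intro R Z₀ Z₁ hR hZ h
  refine E.full' R fun N hN U hU => ?_
  filter_upwards [E.gen hZ hN hU] with x hx
  exact h _ hx ((le_sup_right : zpowers x ≤ Z₁ ⊔ zpowers x) (mem_zpowers x))

/-- `R⁺` -/
def Rp (R : Subgroup G) (hR : R.Normal) : Subgroup G where
  carrier := {y | ∀ g : G, ⁅y, g⁆ ∈ R}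
  one_mem' := by
    intro g
    rw [commutatorElement_one_left]
    exact one_mem _
  mul_mem' := by
    intro y z hy hz g
    have h1 : ⁅y * z, g⁆ = y * ⁅z, g⁆ * y⁻¹ * ⁅y, g⁆ := by
      simp only [commutatorElement_def]; group
    rw [h1]
    exact mul_mem (hR.conj_mem _ (hz g) y) (hy g)
  inv_mem' := by
    intro y hy g
    have h1 : ⁅y⁻¹, g⁆ = y⁻¹ * ⁅y, g⁆⁻¹ * y⁻¹⁻¹ := by
      simp only [commutatorElement_def]; group
    rw [h1]
    exact hR.conj_mem _ (inv_mem (hy g)) _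

theorem mem_Rp {R : Subgroup G} {hR : R.Normal} {y : G} : y ∈ Rp R hR ↔ ∀ g : G, ⁅y, g⁆ ∈ R :=
  Iff.rfl

theorem le_Rp (R : Subgroup G) (hR : R.Normal) : R ≤ Rp R hR := by
  intro y hy g
  have h1 : ⁅y, g⁆ = y * (g * y⁻¹ * g⁻¹) := by
    simp only [commutatorElement_def]; group
  rw [h1]
  exact mul_mem hy (hR.conj_mem _ (inv_mem hy) g)

theorem Rp_normal (R : Subgroup G) (hR : R.Normal) : (Rp R hR).Normal := by
  refine ⟨fun y hy t g => ?_⟩
  have h1 : ⁅t * y * t⁻¹, g⁆ = t * ⁅y, t⁻¹ * g * t⁆ * t⁻¹ := by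
    simp only [commutatorElement_def]; group
  rw [h1]
  exact hR.conj_mem _ (hy _) t

theorem Rp_eq_top (hp : commutator G = ⊤) {R : Subgroup G} {hR : R.Normal}
    (h : Rp R hR = ⊤) : R = ⊤ := by
  rw [← top_le_iff, ← hp, commutator_def, commutator_le]
  intro y _ g _
  exact mem_Rp.1 (by rw [h]; exact mem_top y) g

/-- the subgroup of the `g` with `⁅y, g⁆ ∈ R` -/
def Cen (R : Subgroup G) (hR : R.Normal) (y : G) : Subgroup G where
  carrier := {g | ⁅y, g⁆ ∈ R}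
  one_mem' := by
    change ⁅y, 1⁆ ∈ R
    rw [commutatorElement_one_right]
    exact one_mem _
  mul_mem' := by
    intro g h hg hh
    change ⁅y, g * h⁆ ∈ R
    have h1 : ⁅y, g * h⁆ = ⁅y, g⁆ * (g * ⁅y, h⁆ * g⁻¹) := by
      simp only [commutatorElement_def]; group
    rw [h1]
    exact mul_mem hg (hR.conj_mem _ hh g)
  inv_mem' := by
    intro g hg
    change ⁅y, g⁻¹⁆ ∈ R
    have h1 : ⁅y, g⁻¹⁆ = g⁻¹ * ⁅y, g⁆⁻¹ * g⁻¹⁻¹ := by
      simp only [commutatorElement_def]; group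
    rw [h1]
    exact hR.conj_mem _ (inv_mem hg) _

theorem mem_Cen {R : Subgroup G} {hR : R.Normal} {y g : G} : g ∈ Cen R hR y ↔ ⁅y, g⁆ ∈ R :=
  Iff.rfl

/-- `T_w` implies `T_{[w,x]}` -/
theorem Env.tw_cx (E : Env G a) {w : W} (hw : Tw a w) : Tw a (W.c w W.x) := by
  intro R Z₀ Z₁ hR hZ h
  refine Rp_eq_top E.perf (hR := hR) (hw (Rp R hR) Z₀ Z₁ (Rp_normal R hR) hZ fun X hX y hy => ?_)
  have h1 : Cen R hR y = ⊤ := by
    refine E.full' _ fun N hN U hU => ?_
    filter_upwards [E.gen hX hN hU] with x hx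
    refine h _ (hX.trans hx) ?_
    exact commutator_mem_commutator (w.ev_mono le_sup_left hy)
      ((le_sup_right : zpowers x ≤ X ⊔ zpowers x) (mem_zpowers x))
  intro g
  exact mem_Cen.1 (by rw [h1]; exact mem_top g)

theorem Env.tw_lcw (E : Env G a) (n : ℕ) : Tw a (lcw n) := by
  induction n with
  | zero => exact E.tw_x
  | succ n ih => exact E.tw_cx ih

section module

variable {V R : Subgroup G} {M : Type u} [AddCommGroup M] [DistribMulAction G M]

/-- a homomorphism on the section which vanishes generically has finite image -/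
theorem fin_of_gen (D : MD G V R M) (f : AddMonoid.End M) {U : Ultrafilter G} (hU : JJ V U)
    (h : ∀ᶠ v in (U : Filter G), f (D.π v) = 0) : f ∈ Jk G M 0 := by
  classical
  have hV : ∀ᶠ x in (U : Filter G), x ∈ V := hU.2.1
  let φ : V →* Multiplicative M := MonoidHom.mk' (fun v => Multiplicative.ofAdd (f (D.π v))) (by
    intro v w
    rw [coe_mul, D.mul' _ v.2 _ w.2, map_add]
    rfl)
  let H : Subgroup G := φ.ker.map V.subtype
  have hHV : H ≤ V := map_subtype_le _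
  have hmem : ∀ v ∈ V, f (D.π v) = 0 → v ∈ H := by
    intro v hv h0
    refine mem_map.2 ⟨⟨v, hv⟩, ?_, rfl⟩
    exact h0
  have hidx : H.relIndex V ≠ 0 := by
    intro h0
    refine hU.2.2 H 1 hHV h0 ?_
    filter_upwards [h, hV] with v h1 h2
    rw [inv_one, one_mul]
    exact hmem v h2 h1
  have hidx2 : φ.ker.index ≠ 0 := by
    rw [relIndex] at hidx
    have h2 : H.subgroupOf V = φ.ker := by
      change (φ.ker.map V.subtype).subgroupOf V = φ.ker
      rw [subgroupOf, comap_map_eq_self_of_injective (subtype_injective V)]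
    rwa [h2] at hidx
  have hfinφ : (Set.range φ).Finite := by
    have : φ.ker.FiniteIndex := ⟨hidx2⟩
    have : Finite φ.range := Finite.of_equiv _ (QuotientGroup.quotientKerEquivRange φ).toEquiv
    have h3 : ((φ.range : Subgroup (Multiplicative M)) : Set (Multiplicative M)).Finite :=
      Set.toFinite _
    rwa [MonoidHom.coe_range] at h3
  refine (hfinφ.image Multiplicative.toAdd).subset ?_
  rintro _ ⟨m, rfl⟩
  obtain ⟨v, hv, rfl⟩ := D.surj' m
  exact ⟨φ ⟨v, hv⟩, ⟨_, rfl⟩, rfl⟩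

/-- Step 1 -/
theorem Env.step1 (E : Env G a) (D : MD G V R M) (hV : V ∈ NN G) (k : ℕ) :
    ∀ (f : AddMonoid.End M) (Z₀ X : Subgroup G), Pos a Z₀ X →
      (∀ Z, Pos a X Z → ∀ y ∈ (lcw k).ev Z, y ∈ V → f (D.π y) = 0) → f ∈ Jk G M k := by
  induction k with
  | zero =>
    intro f Z₀ X hX h
    obtain ⟨U, hU⟩ := E.ult V
    refine fin_of_gen D f hU ?_
    have hUV : ∀ᶠ x in (U : Filter G), x ∈ V := hU.2.1
    filter_upwards [E.gen hX hV hU, hUV] with v h1 h2
    exact h _ h1 v ((le_sup_right : zpowers v ≤ X ⊔ zpowers v) (mem_zpowers v)) h2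
  | succ k ih =>
    intro f Z₀ X hX h
    rw [Jk_succ_iff_Sf]
    refine E.full' _ fun N hN U hU => ?_
    filter_upwards [E.gen hX hN hU] with x hx
    rw [mem_Sf]
    refine ih _ X (X ⊔ zpowers x) hx fun Z hZ y hy hyV => ?_
    have hxZ : x ∈ Z := hZ.2.1 ((le_sup_right : zpowers x ≤ X ⊔ zpowers x) (mem_zpowers x))
    have h1 : ⁅x, y⁆ ∈ (lcw (k + 1)).ev Z := by
      change ⁅x, y⁆ ∈ ⁅(lcw k).ev Z, Z⁆
      rw [commutator_comm]
      exact commutator_mem_commutator hxZ hy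
    have hVn : V.Normal := hV.1
    have h2 : D.π ⁅x, y⁆ = x • D.π y - D.π y := by
      have hc : x * y * x⁻¹ ∈ V := hVn.conj_mem y hyV x
      have h3 : D.π ⁅x, y⁆ + D.π y = x • D.π y := by
        rw [← D.mul' _ _ _ hyV, ← D.conj' _ _ hyV]
        · congr 1
          rw [commutatorElement_def]
          group
        · rw [commutatorElement_def]
          exact mul_mem hc (inv_mem hyV)
      rw [← h3]
      abel
    have h4 : ⁅x, y⁆ ∈ V := by
      rw [commutatorElement_def]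
      exact mul_mem (hVn.conj_mem y hyV x) (inv_mem hyV)
    have h5 := h Z (hx.trans hZ) _ h1 h4
    rw [h2] at h5
    exact h5

omit [AddCommGroup M] [DistribMulAction G M] in
theorem NN_sup (A : Set M) (hA : A.Finite) (Nf : M → Subgroup G) (hN : ∀ m ∈ A, Nf m ∈ NN G) :
    ∃ N ∈ NN G, ∀ m ∈ A, Nf m ≤ N := by
  induction A, hA using Set.Finite.induction_on with
  | empty => exact ⟨⊥, ⟨inferInstance, ∅, Set.finite_empty, bot_le⟩, by simp⟩
  | insert hm hs ih =>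
    rename_i m s
    obtain ⟨N, hN1, hN2⟩ := ih fun m hm => hN m (Set.mem_insert_of_mem _ hm)
    have hm1 := hN m (Set.mem_insert _ _)
    obtain ⟨hn1, F1, hF1, hF1'⟩ := hN1
    obtain ⟨hn2, F2, hF2, hF2'⟩ := hm1
    refine ⟨N ⊔ Nf m, ⟨?_, F1 ∪ F2, hF1.union hF2, ?_⟩, ?_⟩
    · exact sup_normal N (Nf m)
    · refine sup_le (hF1'.trans ?_) (hF2'.trans ?_)
      · exact normalClosure_mono Set.subset_union_left
      · exact normalClosure_mono Set.subset_union_right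
    · intro t ht
      rcases Set.mem_insert_iff.1 ht with rfl | ht
      · exact le_sup_right
      · exact (hN2 t ht).trans le_sup_left

/-- Step 2: `D_w` -/
theorem Env.step2 (E : Env G a) (hfin : (1 : AddMonoid.End M) ∈ Jk G M 1)
    (hfix : ∀ m : M, (∀ g : G, g • m = m) → m = 0) (w : W) :
    ∀ (A F : Set M), A.Finite → F.Finite → ∀ (Z₀ Z₁ : Subgroup G), Pos a Z₀ Z₁ →
      (∀ Z, Pos a Z₁ Z → ∀ t ∈ w.ev Z, ∃ m ∈ A, t • m ∈ F) → (0 : M) ∈ A := by
  classical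
  induction w with
  | x =>
    intro A F hA hF Z₀ Z₁ hZ h
    have key : ∀ N ∈ NN G, ∃ m ∈ A, (MulAction.stabilizer G m).relIndex N ≠ 0 := by
      intro N hN
      obtain ⟨U, hU⟩ := E.ult N
      have h1 : ∀ᶠ x in (U : Filter G), ∃ m ∈ A, ∃ f ∈ F, x • m = f := by
        filter_upwards [E.gen hZ hN hU] with x hx
        obtain ⟨m, hm, hf⟩ := h _ hx x
          ((le_sup_right : zpowers x ≤ Z₁ ⊔ zpowers x) (mem_zpowers x))
        exact ⟨m, hm, _, hf, rfl⟩
      have h2 : (⋃ m ∈ A, ⋃ f ∈ F, {x : G | x • m = f}) ∈ U := by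
        refine Filter.mem_of_superset h1 ?_
        intro x hx
        obtain ⟨m, hm, f, hf, hxm⟩ := hx
        simp only [Set.mem_iUnion]
        exact ⟨m, hm, f, hf, hxm⟩
      rw [Ultrafilter.finite_biUnion_mem_iff hA] at h2
      obtain ⟨m, hm, h3⟩ := h2
      rw [Ultrafilter.finite_biUnion_mem_iff hF] at h3
      obtain ⟨f, hf, h4⟩ := h3
      have hUN : ∀ᶠ x in (U : Filter G), x ∈ N := hU.2.1
      have h5 : ∀ᶠ x in (U : Filter G), x • m = f ∧ x ∈ N := by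
        filter_upwards [h4, hUN] with x h6 h7
        exact ⟨h6, h7⟩
      obtain ⟨y, hy1, hy2⟩ := h5.exists
      refine ⟨m, hm, fun h0 => ?_⟩
      refine hU.2.2 (MulAction.stabilizer G m ⊓ N) y inf_le_right
        (by rwa [inf_relIndex_right]) ?_
      filter_upwards [h5] with x hx
      have h8 : y⁻¹ * x ∈ MulAction.stabilizer G m := by
        rw [MulAction.mem_stabilizer_iff, mul_smul, hx.1, inv_smul_eq_iff, hy1]
      exact mem_inf.2 ⟨h8, mul_mem (inv_mem hy2) hx.2⟩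
    have key2 : ∃ m ∈ A, ∀ N ∈ NN G, (MulAction.stabilizer G m).relIndex N ≠ 0 := by
      by_contra hcon
      push Not at hcon
      choose! Nf hNf1 hNf2 using hcon
      obtain ⟨N, hN, hle⟩ := NN_sup A hA Nf hNf1
      obtain ⟨m, hm, h1⟩ := key N hN
      exact h1 (relIndex_eq_zero_of_le_right (hle m hm) (hNf2 m hm))
    obtain ⟨m, hm, h1⟩ := key2
    have h2 := E.full _ h1
    have h3 : m = 0 := hfix m fun g => by
      rw [← MulAction.mem_stabilizer_iff, h2]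
      exact mem_top g
    rwa [h3] at hm
  | c w₁ w₂ ih₁ ih₂ =>
    intro A F hA hF Z₀ Z₁ hZ h
    refine ih₁ A F hA hF Z₀ Z₁ hZ fun X hX y₁ hy₁ => ?_
    let A' : Set M := Set.image2 (fun m f => y₁ • m - f) A F
    have hA' : A'.Finite := Set.Finite.image2 _ hA hF
    let F' : Set M := Set.range (act G M y₁ - 1 : AddMonoid.End M)
    have hF' : F'.Finite := by
      have h1 := hfin y₁
      rw [one_mul] at h1
      exact h1
    have h0 : (0 : M) ∈ A' := by
      refine ih₂ A' F' hA' hF' Z₁ X hX fun Z hZ' y₂ hy₂ => ?_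
      have ht : ⁅y₂⁻¹, y₁⁻¹⁆ ∈ (W.c w₁ w₂).ev Z := by
        change _ ∈ ⁅w₁.ev Z, w₂.ev Z⁆
        rw [commutator_comm]
        exact commutator_mem_commutator (inv_mem hy₂) (inv_mem (w₁.ev_mono hZ'.2.1 hy₁))
      obtain ⟨m, hm, hf⟩ := h Z (hX.trans hZ') _ ht
      refine ⟨y₁ • m - ⁅y₂⁻¹, y₁⁻¹⁆ • m, ⟨m, hm, _, hf, rfl⟩, ?_⟩
      refine ⟨y₂ • ⁅y₂⁻¹, y₁⁻¹⁆ • m, ?_⟩
      change y₁ • y₂ • ⁅y₂⁻¹, y₁⁻¹⁆ • m - y₂ • ⁅y₂⁻¹, y₁⁻¹⁆ • m = _
      rw [smul_sub]
      congr 1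
      rw [smul_smul, smul_smul, smul_smul]
      congr 1
      rw [commutatorElement_def]
      group
    obtain ⟨m, hm, f, hf, hmf⟩ := h0
    refine ⟨m, hm, ?_⟩
    rw [sub_eq_zero.1 hmf]
    exact hf

end module

end Pool.Agent.Work.MP_3fbbd3_h11
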