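import Pool.Agent.Work.MP_3fbbd3_h11.Gen

/-! The main induction. -/

namespace Pool.Agent.Work.MP_3fbbd3_h11

open Subgroup Filter
open scoped commutatorElement

universe u

variable {G : Type u} [Group G] {a : G}

section module

variable {V R : Subgroup G} {M : Type u} [AddCommGroup M] [DistribMulAction G M]

theorem MD.comm_mem (_D : MD G V R M) (hV : V.Normal) (g : G) {v : G} (hv : v ∈ V) :
    ⁅g, v⁆ ∈ V := by
  rw [commutatorElement_def]
  exact mul_mem (hV.conj_mem v hv g) (inv_mem hv)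

theorem MD.π_comm (D : MD G V R M) (hV : V.Normal) (g : G) {v : G} (hv : v ∈ V) :
    D.π ⁅g, v⁆ = g • D.π v - D.π v := by
  have h3 : D.π ⁅g, v⁆ + D.π v = g • D.π v := by
    rw [← D.mul' _ (D.comm_mem hV g hv) _ hv, ← D.conj' _ _ hv]
    congr 1
    rw [commutatorElement_def]
    group
  rw [← h3]
  abel

theorem MD.fix_iff (D : MD G V R M) (hV : V.Normal) (g : G) {v : G} (hv : v ∈ V) :
    g • D.π v = D.π v ↔ ⁅g, v⁆ ∈ R := by
  rw [← D.ker' _ (D.comm_mem hV g hv), D.π_comm hV g hv, sub_eq_zero]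

/-- climbing: from an element of `u(Z) ∩ V ∖ R` to an element of `[w(Z'), u(Z')] ∩ V ∖ R` -/
theorem Env.climb (E : Env G a) (D : MD G V R M) (hV : V.Normal)
    (hfin : (1 : AddMonoid.End M) ∈ Jk G M 1)
    (hfix : ∀ m : M, (∀ g : G, g • m = m) → m = 0) (w u : W) {Z₀ Z : Subgroup G}
    (hZ : Pos a Z₀ Z) {y : G} (hy : y ∈ u.ev Z) (hyV : y ∈ V) (hyR : y ∉ R) :
    ∃ Z', Pos a Z Z' ∧ ∃ y' ∈ ⁅w.ev Z', u.ev Z'⁆, y' ∈ V ∧ y' ∉ R := by
  by_contra hcon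
  push Not at hcon
  have h0 : (0 : M) ∈ ({D.π y} : Set M) := by
    refine E.step2 hfin hfix w {D.π y} {D.π y} (Set.finite_singleton _) (Set.finite_singleton _)
      Z₀ Z hZ fun Z' hZ' t ht => ⟨D.π y, rfl, ?_⟩
    rw [Set.mem_singleton_iff, D.fix_iff hV t hyV]
    exact hcon Z' hZ' _ (commutator_mem_commutator ht (u.ev_mono hZ'.2.1 hy))
      (D.comm_mem hV t hyV)
  exact hyR ((D.ker' y hyV).1 h0.symm)

end module

/-- the elements of `N` which commute with `N` modulo `R` -/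
def VV (N R : Subgroup G) (_hN : N.Normal) (hR : R.Normal) : Subgroup G where
  carrier := {v | v ∈ N ∧ ∀ u ∈ N, ⁅v, u⁆ ∈ R}
  one_mem' := by
    refine ⟨one_mem _, fun u _ => ?_⟩
    rw [commutatorElement_one_left]
    exact one_mem _
  mul_mem' := by
    rintro y z ⟨hy1, hy2⟩ ⟨hz1, hz2⟩
    refine ⟨mul_mem hy1 hz1, fun g hg => ?_⟩
    have h1 : ⁅y * z, g⁆ = y * ⁅z, g⁆ * y⁻¹ * ⁅y, g⁆ := by
      simp only [commutatorElement_def]; group
    rw [h1]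
    exact mul_mem (hR.conj_mem _ (hz2 g hg) y) (hy2 g hg)
  inv_mem' := by
    rintro y ⟨hy1, hy2⟩
    refine ⟨inv_mem hy1, fun g hg => ?_⟩
    have h1 : ⁅y⁻¹, g⁆ = y⁻¹ * ⁅y, g⁆⁻¹ * y⁻¹⁻¹ := by
      simp only [commutatorElement_def]; group
    rw [h1]
    exact hR.conj_mem _ (inv_mem (hy2 g hg)) _

theorem VV_normal (N R : Subgroup G) (hN : N.Normal) (hR : R.Normal) : (VV N R hN hR).Normal := by
  refine ⟨?_⟩
  rintro y ⟨hy1, hy2⟩ t
  refine ⟨hN.conj_mem _ hy1 t, fun g hg => ?_⟩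
  have h1 : ⁅t * y * t⁻¹, g⁆ = t * ⁅y, t⁻¹ * g * t⁆ * t⁻¹ := by
    simp only [commutatorElement_def]; group
  rw [h1]
  refine hR.conj_mem _ (hy2 _ ?_) t
  have := hN.conj_mem g hg t⁻¹
  rwa [inv_inv] at this

theorem exists_VV {N R : Subgroup G} (hN : N.Normal) (hR : R.Normal)
    (hnil : Group.IsNilpotent N) (hNR : ¬ N ≤ R) : ∃ v ∈ VV N R hN hR, v ∉ R := by
  classical
  obtain ⟨n, hn⟩ := (isNilpotent_iff_lowerCentralSeries N).1 hnil
  have hex : ∃ n, N.lowerCentralSeries n ≤ R := ⟨n, by rw [hn]; exact bot_le⟩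
  have h1 := Nat.find_spec hex
  have h0 : Nat.find hex ≠ 0 := by
    intro h0
    rw [h0] at h1
    exact hNR h1
  obtain ⟨k, hk⟩ := Nat.exists_eq_succ_of_ne_zero h0
  have h2 : ¬ N.lowerCentralSeries k ≤ R := Nat.find_min hex (by omega)
  rw [hk] at h1
  obtain ⟨v, hv, hvR⟩ := SetLike.not_le_iff_exists.1 h2
  refine ⟨v, ⟨lowerCentralSeries_le_self N k hv, fun u hu => ?_⟩, hvR⟩
  exact h1 (commutator_mem_commutator hv hu)

/-- a generic element of `V ∖ R` in a position -/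
theorem Env.start (E : Env G a)
    (hfi : ∀ A B : Subgroup G, A.Normal → B.Normal → A ≤ B → A.relIndex B ≠ 0 →
      ⁅B, (⊤ : Subgroup G)⁆ ≤ A)
    {V R : Subgroup G} (hV : V ∈ NN G) (hR : R.Normal)
    (hplus : ∀ y : G, (∀ g : G, ⁅y, g⁆ ∈ R) → y ∈ R) {v : G} (hv : v ∈ V) (hvR : v ∉ R)
    {Z₀ Z₁ : Subgroup G} (hZ : Pos a Z₀ Z₁) :
    ∃ Z, Pos a Z₁ Z ∧ ∃ y ∈ Z, y ∈ V ∧ y ∉ R := by
  have hVn : V.Normal := hV.1
  have hidx : (R ⊓ V).relIndex V = 0 := by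
    by_contra h0
    have h1 := hfi (R ⊓ V) V inferInstance hVn inf_le_right h0
    refine hvR (hplus v fun g => ?_)
    exact (h1 (commutator_mem_commutator hv (mem_top g))).1
  obtain ⟨U, hU⟩ := E.ult V
  have h2 := hU.2.2 (R ⊓ V) 1 inf_le_right hidx
  have h3 : ∀ᶠ x in (U : Filter G), ¬ (1⁻¹ * x ∈ R ⊓ V) := by
    have h4 := Ultrafilter.compl_mem_iff_notMem.2 h2
    exact h4
  have hUV : ∀ᶠ x in (U : Filter G), x ∈ V := hU.2.1
  obtain ⟨x, hx1, hx2, hx3⟩ := ((E.gen hZ hV hU).and (h3.and hUV)).exists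
  refine ⟨_, hx1, x, (le_sup_right : zpowers x ≤ Z₁ ⊔ zpowers x) (mem_zpowers x), hx3, ?_⟩
  intro hxR
  rw [inv_one, one_mul] at hx2
  exact hx2 ⟨hxR, hx3⟩

/-- `T_w` implies `T_{[w, γ_n]}` -/
theorem Env.tw_ck (E : Env G a) (hgrun : Stmt_GRUN.{u}) (hfit : FitG G)
    (hfi : ∀ A B : Subgroup G, A.Normal → B.Normal → A ≤ B → A.relIndex B ≠ 0 →
      ⁅B, (⊤ : Subgroup G)⁆ ≤ A) {w : W} (hw : Tw a w) (n : ℕ) :
    Tw a (W.c w (lcw n)) := by
  intro R' Z₀ Z₁ hR' hZ h'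
  by_contra hR't
  -- replace `R'` by `R = R'⁺`
  obtain ⟨R, hR, hRt, hplus, h⟩ : ∃ R : Subgroup G, R.Normal ∧ R ≠ ⊤ ∧
      (∀ y : G, (∀ g : G, ⁅y, g⁆ ∈ R) → y ∈ R) ∧
      ∀ Z, Pos a Z₁ Z → (W.c w (lcw n)).ev Z ≤ R := by
    refine ⟨Rp R' hR', Rp_normal R' hR', fun ht => hR't (Rp_eq_top E.perf ht), ?_,
      fun Z hZ => (h' Z hZ).trans (le_Rp R' hR')⟩
    intro y hy g
    exact hgrun G E.perf R' hR' y (fun g h => hy g h) g
  obtain ⟨x₀, hx₀⟩ : ∃ x₀, x₀ ∉ R := by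
    by_contra hcon
    push Not at hcon
    exact hRt ((eq_top_iff' R).2 hcon)
  let N := normalClosure ({x₀} : Set G)
  have hNn : N.Normal := normalClosure_normal
  have hNnil : Group.IsNilpotent N := hfit {x₀} (Set.finite_singleton _)
  have hxN : x₀ ∈ N := subset_normalClosure rfl
  obtain ⟨v, hv, hvR⟩ := exists_VV hNn hR hNnil (fun hle => hx₀ (hle hxN))
  let V := VV N R hNn hR
  have hVn : V.Normal := VV_normal N R hNn hR
  have hVN : V ≤ N := fun v hv => hv.1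
  have hVNN : V ∈ NN G := ⟨hVn, {x₀}, Set.finite_singleton _, hVN⟩
  obtain ⟨M, _, _, ⟨D⟩⟩ := exists_MD G V R hVn hR fun v hv w hw => hv.2 w (hVN hw)
  have hfix : ∀ m : M, (∀ g : G, g • m = m) → m = 0 := by
    intro m hm
    obtain ⟨y, hy, rfl⟩ := D.surj' m
    rw [D.ker' y hy]
    refine hplus y fun g => ?_
    have h1 := (D.fix_iff hVn g hy).1 (hm g)
    rw [← commutatorElement_inv]
    exact inv_mem h1
  -- step 1
  have hT : Sf (G := G) (1 : AddMonoid.End M) n = ⊤ := by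
    refine hw _ Z₀ Z₁ (Sf_one_normal n) hZ fun X hX t ht => ?_
    rw [mem_Sf, one_mul]
    refine E.step1 D hVNN n _ Z₁ X hX fun Z hZ' y hy hyV => ?_
    have h1 : ⁅t, y⁆ ∈ R := h Z (hX.trans hZ')
      (commutator_mem_commutator (w.ev_mono hZ'.2.1 ht) hy)
    have h2 := (D.fix_iff hVn t hyV).2 h1
    change t • D.π y - D.π y = 0
    rw [h2, sub_self]
  have hfin : (1 : AddMonoid.End M) ∈ Jk G M 1 :=
    one_mem_Jk_one E.perf (Jk_succ_iff_Sf.2 hT)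
  -- step 2
  have hclimb : ∀ j, ∃ Z, Pos a Z₁ Z ∧ ∃ y ∈ (lcw j).ev Z, y ∈ V ∧ y ∉ R := by
    intro j
    induction j with
    | zero => exact E.start hfi hVNN hR hplus hv hvR hZ
    | succ j ih =>
      obtain ⟨Z, hZ1, y, hy, hyV, hyR⟩ := ih
      obtain ⟨Z', hZ', y', hy', hyV', hyR'⟩ := E.climb D hVn hfin hfix W.x (lcw j) hZ1 hy hyV hyR
      refine ⟨Z', hZ1.trans hZ', y', ?_, hyV', hyR'⟩
      rw [commutator_comm] at hy'
      exact hy'
  obtain ⟨Z, hZ1, y, hy, hyV, hyR⟩ := hclimb n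
  obtain ⟨Z', hZ', y', hy', -, hyR'⟩ := E.climb D hVn hfin hfix w (lcw n) hZ1 hy hyV hyR
  exact hyR' (h Z' (hZ1.trans hZ') hy')

theorem Env.tw_kw (E : Env G a) (hgrun : Stmt_GRUN.{u}) (hfit : FitG G)
    (hfi : ∀ A B : Subgroup G, A.Normal → B.Normal → A ≤ B → A.relIndex B ≠ 0 →
      ⁅B, (⊤ : Subgroup G)⁆ ≤ A) (n c : ℕ) : Tw a (kw n c) := by
  induction c with
  | zero => exact E.tw_lcw n
  | succ c ih => exact E.tw_ck hgrun hfit hfi ih n

theorem NN_normal : ∀ N ∈ NN G, N.Normal := fun _ h => h.1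

theorem NN_directed : DirectedOn (· ≤ ·) (NN G) := by
  rintro N₁ ⟨hn1, F1, hF1, hF1'⟩ N₂ ⟨hn2, F2, hF2, hF2'⟩
  refine ⟨N₁ ⊔ N₂, ⟨sup_normal N₁ N₂, F1 ∪ F2, hF1.union hF2, ?_⟩, le_sup_left, le_sup_right⟩
  refine sup_le (hF1'.trans ?_) (hF2'.trans ?_)
  · exact normalClosure_mono Set.subset_union_left
  · exact normalClosure_mono Set.subset_union_right

theorem NN_cover (x : G) : ∃ N ∈ NN G, x ∈ N :=
  ⟨normalClosure {x}, ⟨normalClosure_normal, {x}, Set.finite_singleton _, le_rfl⟩,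
    subset_normalClosure rfl⟩

/-- the environment exists when all proper subgroups satisfy an outer commutator law -/
theorem mkEnv (hult : Stmt_ULT.{u}) (havoid : Stmt_AVOID.{u}) (hkma : Stmt_KMA.{u})
    {p : ℕ} (h : Ctx p G) (hfit : FitG G)
    (hlaw : ∀ H : Subgroup G, H ≠ ⊤ → ∃ w : W, w.ev H = ⊥) (a : G) : Env G a where
  perf := h.perf
  lf := h.lf
  ult := hult G
  avoid := fun N hN U hU L hL haL =>
    havoid p G h.prime.ne_zero h.pgrp hfit N hN U hU.1 hU.2.1 L a hL haL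
  full := by
    intro S hS
    by_contra hSt
    obtain ⟨w, hw⟩ := hlaw S hSt
    obtain ⟨N, hN, h0⟩ := hkma p G h (NN G) NN_normal NN_directed NN_cover w S hw
    exact hS N hN h0

theorem lcw_ev (n : ℕ) (X : Subgroup G) : (lcw n).ev X = X.lowerCentralSeries n := by
  induction n with
  | zero => rfl
  | succ n ih =>
    rw [Subgroup.lowerCentralSeries_succ, ← ih]
    rfl

theorem kw_ev (m n : ℕ) (X : Subgroup G) :
    (kw m n).ev X = (X.lowerCentralSeries m).lowerCentralSeries n := by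
  induction n with
  | zero => exact lcw_ev m X
  | succ n ih =>
    rw [Subgroup.lowerCentralSeries_succ, ← ih, ← lcw_ev]
    rfl

theorem kw_antitone {m n m' n' : ℕ} (hm : m ≤ m') (hn : n ≤ n') (X : Subgroup G) :
    (kw m' n').ev X ≤ (kw m n).ev X := by
  rw [kw_ev, kw_ev]
  exact (Subgroup.lowerCentralSeries_antitone _ hn).trans
    (Subgroup.lowerCentralSeries_mono n (Subgroup.lowerCentralSeries_antitone X hm))

theorem meta_law {H : Subgroup G} (h : MNil H) : ∃ n, ∀ m, n ≤ m → (kw m m).ev H = ⊥ := by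
  obtain ⟨n, hn⟩ := h
  refine ⟨n, fun m hm => ?_⟩
  rw [eq_bot_iff, ← hn]
  exact kw_antitone hm hm H

/-- T1, words version -/
theorem main_T1 (hfi : Stmt_FI.{u}) (hbrk : Stmt_BRK.{u}) (havoid : Stmt_AVOID.{u})
    (hult : Stmt_ULT.{u}) (hkma : Stmt_KMA.{u}) (hred : Stmt_RED.{u}) (hgrun : Stmt_GRUN.{u})
    (p : ℕ) (G : Type u) [Group G] (h : Ctx p G) : ∃ H : Subgroup G, H ≠ ⊤ ∧ ¬ MNil H := by
  by_contra hcon
  push Not at hcon
  obtain ⟨G', _, h', hfit, hmeta⟩ := hred p G h hcon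
  have : Nontrivial G' := h'.nontriv
  obtain ⟨a, ha⟩ := exists_ne (1 : G')
  have E : Env G' a := mkEnv hult havoid hkma h' hfit (fun H hH => by
    obtain ⟨n, hn⟩ := hmeta H hH
    exact ⟨_, hn⟩) a
  obtain ⟨Z₀, hZ₀, haZ₀, n, hn⟩ := hbrk G' h'.lf (fun n => kw n n)
    (fun H hH => meta_law (hmeta H hH)) a ha
  have hZ : Pos a Z₀ Z₀ := ⟨hZ₀, le_rfl, haZ₀⟩
  have h1 := E.tw_kw hgrun hfit (hfi p G' h').2 n n ⊥ Z₀ Z₀ inferInstance hZ fun Z hZ' => by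
    rw [hn Z hZ'.1 hZ'.2.1 hZ'.2.2]
  exact bot_ne_top h1

theorem dw_ev (n : ℕ) (X : Subgroup G) :
    (dw n).ev X = (derivedSeries X n).map X.subtype := by
  induction n with
  | zero =>
    change X = _
    rw [derivedSeries_zero, ← MonoidHom.range_eq_map, range_subtype]
  | succ n ih =>
    rw [derivedSeries_succ, map_commutator, ← ih]
    rfl

theorem dw_law {H : Subgroup G} (h : Group.IsSolvable H) :
    ∃ n, ∀ m, n ≤ m → (dw m).ev H = ⊥ := by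
  obtain ⟨n, hn⟩ := h.solvable
  refine ⟨n, fun m hm => ?_⟩
  have h1 := derivedSeries_antitone H hm
  rw [hn, le_bot_iff] at h1
  rw [dw_ev, h1, Subgroup.map_bot]

end Pool.Agent.Work.MP_3fbbd3_h11
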