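import Pool.Agent.Work.MP_3fbbd3_h11.Main

/-! The second theorem, with iterated commutators. -/

namespace Pool.Agent.Work.MP_3fbbd3_h11

open Subgroup Filter
open scoped commutatorElement

universe u

variable {G : Type u} [Group G] {a : G}

section module

variable {V R : Subgroup G} {M : Type u} [AddCommGroup M] [DistribMulAction G M]

theorem fin_image (D : MD G V R M) {R' : Subgroup G} (hRR : R' ≤ R) {S : Set G}
    (hS : ∀ s ∈ S, s ∈ V) (hfin : ((fun s : G => (QuotientGroup.mk s : G ⧸ R')) '' S).Finite) :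
    (D.π '' S).Finite := by
  classical
  have hsub : (D.π '' S) ⊆ (fun q : G ⧸ R' => if hq : ∃ s ∈ S, (QuotientGroup.mk s : G ⧸ R') = q
      then D.π hq.choose else 0) '' ((fun s : G => (QuotientGroup.mk s : G ⧸ R')) '' S) := by
    rintro _ ⟨s, hs, rfl⟩
    refine ⟨QuotientGroup.mk s, ⟨s, hs, rfl⟩, ?_⟩
    have hq : ∃ t ∈ S, (QuotientGroup.mk t : G ⧸ R') = QuotientGroup.mk s := ⟨s, hs, rfl⟩
    have hq1 := hq.choose_spec.1
    have hq2 := hq.choose_spec.2
    dsimp only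
    rw [dif_pos hq]
    rw [QuotientGroup.eq] at hq2
    have key : ∀ z ∈ S, z⁻¹ * s ∈ R' → D.π z = D.π s := by
      intro z hz hzs
      have h4 : s = z * (z⁻¹ * s) := by group
      conv_rhs => rw [h4]
      rw [D.mul' _ (hS z hz) _ (mul_mem (inv_mem (hS z hz)) (hS s hs)),
        (D.ker' _ (mul_mem (inv_mem (hS z hz)) (hS s hs))).2 (hRR hzs), add_zero]
    exact key _ hq1 hq2
  exact (hfin.image _).subset hsub

variable (M) in
/-- the product of the `g - 1` -/
def lprod (l : List G) : AddMonoid.End M := (l.map fun g => act G M g - 1).prod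

theorem Jk_of_lprod (k : ℕ) : ∀ f : AddMonoid.End M,
    (∀ l : List G, l.length = k → f * lprod M l ∈ Jk G M 0) → f ∈ Jk G M k := by
  induction k with
  | zero =>
    intro f h
    have := h [] rfl
    rwa [lprod, List.map_nil, List.prod_nil, mul_one] at this
  | succ k ih =>
    intro f h g
    refine ih _ fun l hl => ?_
    have := h (g :: l) (by simp [hl])
    rw [lprod, List.map_cons, List.prod_cons, ← mul_assoc] at this
    exact this

theorem foldr_comm (D : MD G V R M) (hV : V.Normal) (l : List G) {v : G} (hv : v ∈ V) :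
    l.foldr (fun g w => ⁅g, w⁆) v ∈ V ∧
      D.π (l.foldr (fun g w => ⁅g, w⁆) v) = lprod M l (D.π v) := by
  induction l with
  | nil =>
    refine ⟨hv, ?_⟩
    rw [lprod, List.map_nil, List.prod_nil]
    rfl
  | cons g l ih =>
    rw [List.foldr_cons]
    refine ⟨D.comm_mem hV g ih.1, ?_⟩
    have h1 : lprod M (g :: l) = (act G M g - 1) * lprod M l := by
      rw [lprod, List.map_cons, List.prod_cons]
      rfl
    rw [D.π_comm hV g ih.1, ih.2, h1]
    rfl

end module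

/-- T2: a minimal non-solvable perfect Fitting `p`-group has no noncentral abelian
normal section on which some iterated commutator `[V, g₁, ..., g_k]` is always finite -/
theorem main_T2' (hfi : Stmt_FI.{u}) (hbrk : Stmt_BRK.{u}) (havoid : Stmt_AVOID.{u})
    (hult : Stmt_ULT.{u}) (hkma : Stmt_KMA.{u}) (hgrun : Stmt_GRUN.{u})
    (p : ℕ) (G : Type u) [Group G] (h : Ctx p G) (hfit : FitG G)
    (R V : Subgroup G) (hR : R.Normal) (hV : V.Normal) (hab : ⁅V, V⁆ ≤ R)
    (hnc : ¬ ⁅V, (⊤ : Subgroup G)⁆ ≤ R) (k : ℕ)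
    (hfin : ∀ l : List G, l.length = k →
      ((fun v : G => (QuotientGroup.mk (l.foldr (fun g w => ⁅g, w⁆) v) : G ⧸ R)) ''
        (V : Set G)).Finite) :
    ∃ H : Subgroup G, H ≠ ⊤ ∧ ¬ Group.IsSolvable H := by
  by_contra hcon
  push Not at hcon
  have : Nontrivial G := h.nontriv
  obtain ⟨a, ha⟩ := exists_ne (1 : G)
  have E : Env G a := mkEnv hult havoid hkma h hfit (fun H hH => by
    obtain ⟨n, hn⟩ := dw_law (hcon H hH)
    exact ⟨_, hn n le_rfl⟩) a
  obtain ⟨Z₀, hZ₀, haZ₀, n, hn⟩ := hbrk G h.lf dw (fun H hH => dw_law (hcon H hH)) a ha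
  have hZ : Pos a Z₀ Z₀ := ⟨hZ₀, le_rfl, haZ₀⟩
  let R₁ := Rp R hR
  have hR₁ : R₁.Normal := Rp_normal R hR
  have hplus : ∀ y : G, (∀ g : G, ⁅y, g⁆ ∈ R₁) → y ∈ R₁ := by
    intro y hy g
    exact hgrun G E.perf R hR y (fun g h => hy g h) g
  obtain ⟨v, hvV, hvR⟩ : ∃ v ∈ V, v ∉ R₁ := by
    by_contra hc
    push Not at hc
    apply hnc
    rw [commutator_le]
    intro v hv g _
    exact hc v hv g
  let V₁ := V ⊓ normalClosure ({v} : Set G)
  have hV₁ : V₁ ∈ NN G := ⟨inferInstance, {v}, Set.finite_singleton _, inf_le_right⟩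
  have hV₁n : V₁.Normal := hV₁.1
  have hvV₁ : v ∈ V₁ := ⟨hvV, subset_normalClosure rfl⟩
  obtain ⟨M, _, _, ⟨D⟩⟩ := exists_MD G V₁ R₁ hV₁n hR₁ fun v hv w hw =>
    le_Rp R hR (hab (commutator_mem_commutator hv.1 hw.1))
  have hfix : ∀ m : M, (∀ g : G, g • m = m) → m = 0 := by
    intro m hm
    obtain ⟨y, hy, rfl⟩ := D.surj' m
    rw [D.ker' y hy]
    refine hplus y fun g => ?_
    have h1 := (D.fix_iff hV₁n g hy).1 (hm g)
    rw [← commutatorElement_inv]
    exact inv_mem h1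
  have hk : (1 : AddMonoid.End M) ∈ Jk G M k := by
    refine Jk_of_lprod k _ fun l hl => ?_
    rw [one_mul]
    let S : Set G := (fun v : G => l.foldr (fun g w => ⁅g, w⁆) v) '' (V₁ : Set G)
    have hS : ∀ s ∈ S, s ∈ V₁ := by
      rintro _ ⟨v, hv, rfl⟩
      exact (foldr_comm D hV₁n l hv).1
    have hSfin : ((fun s : G => (QuotientGroup.mk s : G ⧸ R)) '' S).Finite := by
      refine (hfin l hl).subset ?_
      rintro _ ⟨_, ⟨v, hv, rfl⟩, rfl⟩
      exact ⟨v, hv.1, rfl⟩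
    refine (fin_image D (le_Rp R hR) hS hSfin).subset ?_
    rintro _ ⟨m, rfl⟩
    obtain ⟨y, hy, rfl⟩ := D.surj' m
    exact ⟨_, ⟨y, hy, rfl⟩, (foldr_comm D hV₁n l hy).2⟩
  have hfin' : (1 : AddMonoid.End M) ∈ Jk G M 1 := by
    cases k with
    | zero =>
      intro g
      rw [one_mul]
      have h1 := Jk_mul_left (act G M g - 1) hk
      rwa [mul_one] at h1
    | succ k => exact one_mem_Jk_one E.perf hk
  have hclimb : ∀ j, ∃ Z, Pos a Z₀ Z ∧ ∃ y ∈ (dw j).ev Z, y ∈ V₁ ∧ y ∉ R₁ := by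
    intro j
    induction j with
    | zero => exact E.start (hfi p G h).2 hV₁ hR₁ hplus hvV₁ hvR hZ
    | succ j ih =>
      obtain ⟨Z, hZ1, y, hy, hyV, hyR⟩ := ih
      obtain ⟨Z', hZ', y', hy', hyV', hyR'⟩ :=
        E.climb D hV₁n hfin' hfix (dw j) (dw j) hZ1 hy hyV hyR
      exact ⟨Z', hZ1.trans hZ', y', hy', hyV', hyR'⟩
  obtain ⟨Z, hZ1, y, hy, -, hyR⟩ := hclimb n
  rw [hn Z hZ1.1 hZ1.2.1 hZ1.2.2, Subgroup.mem_bot] at hy
  exact hyR (hy ▸ one_mem _)

end Pool.Agent.Work.MP_3fbbd3_h11
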