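import Pool.Agent.Work.MP_3fbbd3_h11.Interface

/-! The module attached to an abelian normal section, ideals of almost annihilating
endomorphisms. -/

namespace Pool.Agent.Work.MP_3fbbd3_h11

open Subgroup
open scoped commutatorElement

universe u

/-- `M` is the abelian section `VR/R` -/
structure MD (G : Type u) [Group G] (V R : Subgroup G) (M : Type u) [AddCommGroup M]
    [DistribMulAction G M] where
  π : G → M
  mul' : ∀ v ∈ V, ∀ w ∈ V, π (v * w) = π v + π w
  conj' : ∀ g : G, ∀ v ∈ V, π (g * v * g⁻¹) = g • π v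
  ker' : ∀ v ∈ V, π v = 0 ↔ v ∈ R
  surj' : ∀ m : M, ∃ v ∈ V, π v = m

theorem exists_MD (G : Type u) [Group G] (V R : Subgroup G) (hV : V.Normal) (hR : R.Normal)
    (hab : ∀ v ∈ V, ∀ w ∈ V, ⁅v, w⁆ ∈ R) :
    ∃ (M : Type u) (_ : AddCommGroup M) (_ : DistribMulAction G M), Nonempty (MD G V R M) := by
  classical
  let A : Subgroup (G ⧸ R) := V.map (QuotientGroup.mk' R)
  have hA : A.Normal := hV.map _ (QuotientGroup.mk'_surjective R)
  have hcomm : ∀ a b : A, a * b = b * a := by
    rintro ⟨a, ha⟩ ⟨b, hb⟩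
    obtain ⟨v, hv, rfl⟩ := mem_map.1 ha
    obtain ⟨w, hw, rfl⟩ := mem_map.1 hb
    have h1 := hab v hv w hw
    rw [← QuotientGroup.eq_one_iff, ← QuotientGroup.mk'_apply R, map_commutatorElement,
      commutatorElement_eq_one_iff_mul_comm] at h1
    ext
    exact h1
  let _ : CommGroup A := { (inferInstance : Group A) with mul_comm := hcomm }
  let act : G →* MulAut A := (MulAut.conjNormal (H := A)).comp (QuotientGroup.mk' R)
  let _ : DistribMulAction G (Additive A) :=
    { smul := fun g m => Additive.ofMul (act g m.toMul)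
      one_smul := by
        intro m
        change Additive.ofMul (act 1 m.toMul) = m
        rw [map_one]
        rfl
      mul_smul := by
        intro g h m
        change Additive.ofMul (act (g * h) m.toMul) =
          Additive.ofMul (act g (Additive.ofMul (act h m.toMul)).toMul)
        rw [map_mul]
        rfl
      smul_zero := by
        intro g
        change Additive.ofMul (act g 1) = 0
        rw [map_one]
        rfl
      smul_add := by
        intro g m n
        change Additive.ofMul (act g (m.toMul * n.toMul)) = _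
        rw [map_mul]
        rfl }
  refine ⟨Additive A, inferInstance, inferInstance, ⟨?_⟩⟩
  let π : G → Additive A := fun v =>
    if h : v ∈ V then Additive.ofMul ⟨QuotientGroup.mk' R v, mem_map_of_mem _ h⟩ else 0
  have hπ : ∀ v (h : v ∈ V), π v = Additive.ofMul ⟨QuotientGroup.mk' R v, mem_map_of_mem _ h⟩ :=
    fun v h => dif_pos h
  refine ⟨π, ?_, ?_, ?_, ?_⟩
  · intro v hv w hw
    rw [hπ _ hv, hπ _ hw, hπ _ (mul_mem hv hw)]
    rfl
  · intro g v hv
    rw [hπ _ hv, hπ _ (hV.conj_mem v hv g)]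
    change _ = Additive.ofMul (act g _)
    congr 1
  · intro v hv
    rw [hπ _ hv]
    constructor
    · intro h
      have h1 : QuotientGroup.mk' R v = 1 := congrArg (fun m : Additive A => (m.toMul : G ⧸ R)) h
      rwa [QuotientGroup.mk'_apply, QuotientGroup.eq_one_iff] at h1
    · intro h
      have h1 : QuotientGroup.mk' R v = 1 := by
        rwa [QuotientGroup.mk'_apply, QuotientGroup.eq_one_iff]
      change (⟨QuotientGroup.mk' R v, _⟩ : A) = (1 : A)
      ext
      exact h1
  · intro m
    obtain ⟨v, hv, hvm⟩ := mem_map.1 m.toMul.2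
    refine ⟨v, hv, ?_⟩
    rw [hπ _ hv]
    change (⟨QuotientGroup.mk' R v, _⟩ : A) = m.toMul
    ext
    exact hvm

section J

variable {G : Type u} [Group G] {M : Type u} [AddCommGroup M] [DistribMulAction G M]

variable (G M) in
/-- the action as endomorphisms -/
abbrev act (g : G) : AddMonoid.End M := DistribMulAction.toAddMonoidEnd G M g

@[simp] theorem act_apply (g : G) (m : M) : act G M g m = g • m := rfl

theorem act_mul (g h : G) : act G M (g * h) = act G M g * act G M h := map_mul _ _ _

theorem act_one : act G M (1 : G) = 1 := map_one _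

variable (G M) in
/-- endomorphisms which almost annihilate, `k` augmentation factors -/
def Jk : ℕ → Set (AddMonoid.End M)
  | 0 => {f | (Set.range f).Finite}
  | k + 1 => {f | ∀ g : G, f * (act G M g - 1) ∈ Jk k}

theorem Jk_succ {k : ℕ} {f : AddMonoid.End M} :
    f ∈ Jk G M (k + 1) ↔ ∀ g : G, f * (act G M g - 1) ∈ Jk G M k := Iff.rfl

theorem Jk_zero_mem (k : ℕ) : (0 : AddMonoid.End M) ∈ Jk G M k := by
  induction k with
  | zero =>
    refine (Set.finite_singleton (0 : M)).subset ?_
    rintro _ ⟨m, rfl⟩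
    simp
  | succ k ih =>
    intro g
    rw [zero_mul]
    exact ih

theorem Jk_add {k : ℕ} : ∀ {f h : AddMonoid.End M}, f ∈ Jk G M k → h ∈ Jk G M k →
    f + h ∈ Jk G M k := by
  induction k with
  | zero =>
    intro f h hf hh
    refine (Set.Finite.image2 (· + ·) hf hh).subset ?_
    rintro _ ⟨m, rfl⟩
    exact ⟨f m, ⟨m, rfl⟩, h m, ⟨m, rfl⟩, rfl⟩
  | succ k ih =>
    intro f h hf hh g
    rw [add_mul]
    exact ih (hf g) (hh g)

theorem Jk_mul_left {k : ℕ} : ∀ {f : AddMonoid.End M} (h : AddMonoid.End M), f ∈ Jk G M k →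
    h * f ∈ Jk G M k := by
  induction k with
  | zero =>
    intro f h hf
    refine (Set.Finite.image h hf).subset ?_
    rintro _ ⟨m, rfl⟩
    exact ⟨f m, ⟨m, rfl⟩, rfl⟩
  | succ k ih =>
    intro f h hf g
    rw [mul_assoc]
    exact ih h (hf g)

theorem Jk_neg {k : ℕ} {f : AddMonoid.End M} (hf : f ∈ Jk G M k) : -f ∈ Jk G M k := by
  have h := Jk_mul_left (-1) hf
  rwa [neg_one_mul] at h

theorem Jk_sub {k : ℕ} {f h : AddMonoid.End M} (hf : f ∈ Jk G M k) (hh : h ∈ Jk G M k) :
    f - h ∈ Jk G M k := by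
  rw [sub_eq_add_neg]
  exact Jk_add hf (Jk_neg hh)

theorem Jk_mul_act {k : ℕ} : ∀ {f : AddMonoid.End M} (h : G), f ∈ Jk G M k →
    f * act G M h ∈ Jk G M k := by
  induction k with
  | zero =>
    intro f h hf
    refine hf.subset ?_
    rintro _ ⟨m, rfl⟩
    exact ⟨h • m, rfl⟩
  | succ k ih =>
    intro f h hf g
    have h1 : f * act G M h * (act G M g - 1) =
        f * (act G M (h * g * h⁻¹) - 1) * act G M h := by
      have h2 : act G M (h * g * h⁻¹) * act G M h = act G M h * act G M g := by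
        rw [← act_mul, ← act_mul]
        congr 1
        group
      rw [mul_sub f, sub_mul (f * act G M (h * g * h⁻¹)), mul_assoc f _ (act G M h), h2,
        mul_sub (f * act G M h), mul_assoc f _ (act G M g), mul_one, mul_one]
    rw [h1]
    exact ih h (hf _)

/-- the subgroup of the `g` with `f (g - 1) ∈ J_k` -/
def Sf (f : AddMonoid.End M) (k : ℕ) : Subgroup G where
  carrier := {g | f * (act G M g - 1) ∈ Jk G M k}
  one_mem' := by
    change f * (act G M 1 - 1) ∈ Jk G M k
    rw [act_one, sub_self, mul_zero]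
    exact Jk_zero_mem k
  mul_mem' := by
    intro g h hg hh
    change f * (act G M (g * h) - 1) ∈ Jk G M k
    have h1 : f * (act G M (g * h) - 1) =
        f * (act G M g - 1) * act G M h + f * (act G M h - 1) := by
      rw [act_mul]
      noncomm_ring
    rw [h1]
    exact Jk_add (Jk_mul_act h hg) hh
  inv_mem' := by
    intro g hg
    change f * (act G M g⁻¹ - 1) ∈ Jk G M k
    have h1 : f * (act G M g⁻¹ - 1) = -(f * (act G M g - 1) * act G M g⁻¹) := by
      have h2 : act G M g * act G M g⁻¹ = 1 := by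
        rw [← act_mul, mul_inv_cancel, act_one]
      rw [mul_sub, mul_sub, sub_mul, mul_assoc f (act G M g), h2]
      simp
    rw [h1]
    exact Jk_neg (Jk_mul_act _ hg)

theorem mem_Sf {f : AddMonoid.End M} {k : ℕ} {g : G} :
    g ∈ Sf (G := G) f k ↔ f * (act G M g - 1) ∈ Jk G M k := Iff.rfl

theorem Jk_succ_iff_Sf {f : AddMonoid.End M} {k : ℕ} :
    f ∈ Jk G M (k + 1) ↔ Sf (G := G) f k = ⊤ := by
  rw [Jk_succ, eq_top_iff']
  rfl

theorem Sf_one_normal (k : ℕ) : (Sf (G := G) (1 : AddMonoid.End M) k).Normal := by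
  refine ⟨fun t ht g => ?_⟩
  rw [mem_Sf, one_mul] at ht ⊢
  have h1 : act G M (g * t * g⁻¹) - 1 = act G M g * (act G M t - 1) * act G M g⁻¹ := by
    have h2 : act G M g * act G M g⁻¹ = 1 := by
      rw [← act_mul, mul_inv_cancel, act_one]
    rw [act_mul, act_mul, mul_sub, sub_mul, mul_one, h2]
  rw [h1]
  exact Jk_mul_act _ (Jk_mul_left _ ht)

/-- perfectness: `1 ∈ J_{k+2}` implies `1 ∈ J_{k+1}` -/
theorem one_mem_Jk_down (hp : commutator G = ⊤) {k : ℕ}
    (h : (1 : AddMonoid.End M) ∈ Jk G M (k + 2)) : (1 : AddMonoid.End M) ∈ Jk G M (k + 1) := by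
  rw [Jk_succ_iff_Sf, ← top_le_iff, ← hp, commutator_def, commutator_le]
  intro g _ t _
  rw [mem_Sf, one_mul]
  have h1 : ∀ a b : G, (act G M a - 1) * (act G M b - 1) ∈ Jk G M k := by
    intro a b
    have := h a b
    rwa [one_mul] at this
  have h2 : act G M (g * t) - act G M (t * g) ∈ Jk G M k := by
    have h3 : act G M (g * t) - act G M (t * g) =
        (act G M g - 1) * (act G M t - 1) - (act G M t - 1) * (act G M g - 1) := by
      rw [act_mul, act_mul]
      noncomm_ring
    rw [h3]
    exact Jk_sub (h1 g t) (h1 t g)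
  have h4 : act G M ⁅g, t⁆ - 1 = (act G M (g * t) - act G M (t * g)) * act G M (t * g)⁻¹ := by
    rw [sub_mul, ← act_mul, ← act_mul, mul_inv_cancel, act_one]
    congr 2
    rw [commutatorElement_def]
    group
  rw [h4]
  exact Jk_mul_act _ h2

theorem one_mem_Jk_one (hp : commutator G = ⊤) : ∀ {k : ℕ},
    (1 : AddMonoid.End M) ∈ Jk G M (k + 1) → (1 : AddMonoid.End M) ∈ Jk G M 1
  | 0, h => h
  | _ + 1, h => one_mem_Jk_one hp (one_mem_Jk_down hp h)

end J

end Pool.Agent.Work.MP_3fbbd3_h11
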