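import Pool.Agent.Work.MP_3fbbd3_h11.Interface

/-!
Block ULT: idempotent ultrafilters on a subgroup without cosets of subgroups of infinite index.
-/

namespace Pool.Agent.Work.MP_3fbbd3_h11

open Subgroup
open scoped Pointwise

universe u

attribute [local instance] Ultrafilter.mul Ultrafilter.semigroup

namespace ULT

/-- the ultrafilters of the block -/
def SS {G : Type u} [Group G] (N : Subgroup G) : Set (Ultrafilter G) :=
  {U | (N : Set G) ∈ U ∧
    ∀ (H : Subgroup G) (y : G), H ≤ N → H.relIndex N = 0 → {x : G | y⁻¹ * x ∈ H} ∉ U}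

lemma SS_closed {G : Type u} [Group G] (N : Subgroup G) : IsClosed (SS N) := by
  have h : SS N = {U : Ultrafilter G | (N : Set G) ∈ U} ∩
      ⋂ (H : Subgroup G) (y : G) (_ : H ≤ N) (_ : H.relIndex N = 0),
        {U : Ultrafilter G | {x : G | y⁻¹ * x ∈ H} ∈ U}ᶜ := by
    ext U
    simp only [SS, Set.mem_ofPred_eq, Set.mem_inter_iff, Set.mem_iInter, Set.mem_compl_iff]
  rw [h]
  refine (ultrafilter_isClosed_basic _).inter ?_
  refine isClosed_iInter fun H => isClosed_iInter fun y => isClosed_iInter fun _ =>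
    isClosed_iInter fun _ => ?_
  exact (ultrafilter_isOpen_basic _).isClosed_compl

lemma SS_mul {G : Type u} [Group G] (N : Subgroup G) (U V : Ultrafilter G) (hU : U ∈ SS N)
    (hV : V ∈ SS N) : U * V ∈ SS N := by
  refine ⟨?_, ?_⟩
  · have h : ∀ᶠ m in ((U * V : Ultrafilter G) : Filter G), m ∈ N := by
      rw [Ultrafilter.eventually_mul]
      have h1 : ∀ᶠ m in (U : Filter G), m ∈ N := hU.1
      have h2 : ∀ᶠ m in (V : Filter G), m ∈ N := hV.1
      filter_upwards [h1] with m hm
      filter_upwards [h2] with m' hm'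
      exact N.mul_mem hm hm'
    exact h
  · intro H y hH hHN hmem
    have h : ∀ᶠ m in ((U * V : Ultrafilter G) : Filter G), y⁻¹ * m ∈ H := hmem
    rw [Ultrafilter.eventually_mul] at h
    obtain ⟨u, hu⟩ := h.exists
    refine hV.2 H (u⁻¹ * y) hH hHN ?_
    have h2 : ∀ᶠ v in (V : Filter G), (u⁻¹ * y)⁻¹ * v ∈ H := by
      filter_upwards [hu] with v hv
      have e : (u⁻¹ * y)⁻¹ * v = y⁻¹ * (u * v) := by group
      rw [e]
      exact hv
    exact h2

lemma SS_nonempty {G : Type u} [Group G] (N : Subgroup G) : (SS N).Nonempty := by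
  classical
  let S : Set (Set G) := {(N : Set G)} ∪
    {A | ∃ (H : Subgroup G) (y : G), H ≤ N ∧ H.relIndex N = 0 ∧ A = {x : G | y⁻¹ * x ∈ H}ᶜ}
  obtain ⟨U, hU⟩ := Ultrafilter.exists_ultrafilter_of_finite_inter_nonempty S (by
    intro T hT
    by_contra hne
    rw [Set.not_nonempty_iff_eq_empty] at hne
    -- the members of coset form
    let T' := T.filter fun A => ∃ (H : Subgroup G) (y : G), H ≤ N ∧ H.relIndex N = 0 ∧
      A = {x : G | y⁻¹ * x ∈ H}ᶜ
    have hdata : ∀ A : Set G, ∃ (H : Subgroup G) (y : G), A ∈ T' → H ≤ N ∧ H.relIndex N = 0 ∧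
        A = {x : G | y⁻¹ * x ∈ H}ᶜ := by
      intro A
      by_cases hA : A ∈ T'
      · obtain ⟨H, y, h⟩ := (Finset.mem_filter.1 hA).2
        exact ⟨H, y, fun _ => h⟩
      · exact ⟨⊥, 1, fun h => absurd h hA⟩
    choose Hf yf hf using hdata
    let g : Set G → N := fun A => if h : yf A ∈ N then ⟨yf A, h⟩ else 1
    have hcov : ⋃ A ∈ T', g A • ((Hf A).subgroupOf N : Set N) = Set.univ := by
      rw [Set.eq_univ_iff_forall]
      intro n
      have h1 : (n : G) ∉ ⋂₀ (↑T : Set (Set G)) := by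
        rw [hne]
        exact Set.notMem_empty _
      rw [Set.mem_sInter] at h1
      push Not at h1
      obtain ⟨A, hAT, hnA⟩ := h1
      have hAT' : A ∈ T' := by
        refine Finset.mem_filter.2 ⟨hAT, ?_⟩
        rcases hT hAT with h | h
        · exfalso
          rw [Set.mem_singleton_iff] at h
          rw [h] at hnA
          exact hnA n.2
        · exact h
      obtain ⟨e1, e2, e3⟩ := hf A hAT'
      rw [e3] at hnA
      have h2 : (yf A)⁻¹ * (n : G) ∈ Hf A := by
        by_contra h3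
        exact hnA h3
      have h3 : yf A ∈ N := by
        have h4 := N.mul_mem n.2 (N.inv_mem (e1 h2))
        have e : (n : G) * ((yf A)⁻¹ * (n : G))⁻¹ = yf A := by group
        rwa [e] at h4
      rw [Set.mem_iUnion₂]
      refine ⟨A, hAT', ?_⟩
      rw [Set.mem_smul_set_iff_inv_smul_mem]
      have h5 : g A = ⟨yf A, h3⟩ := dif_pos h3
      rw [h5]
      exact h2
    obtain ⟨A, hA, hfin⟩ := Subgroup.exists_finiteIndex_of_leftCoset_cover hcov
    exact hfin.index_ne_zero (hf A hA).2.1)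
  refine ⟨U, hU (Or.inl rfl), ?_⟩
  intro H y hH hHN hmem
  have h1 : {x : G | y⁻¹ * x ∈ H}ᶜ ∈ U := hU (Or.inr ⟨H, y, hH, hHN, rfl⟩)
  exact Ultrafilter.compl_notMem_iff.2 hmem h1

end ULT

theorem blk_ULT : Stmt_ULT.{u} := by
  intro G _ N
  obtain ⟨U, hU, hUU⟩ := exists_idempotent_in_compact_subsemigroup
    (M := Ultrafilter G) Ultrafilter.continuous_mul_left (ULT.SS N) (ULT.SS_nonempty N)
    (ULT.SS_closed N).isCompact (fun U hU V hV => ULT.SS_mul N U V hU hV)
  refine ⟨U, ?_, hU.1, hU.2⟩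
  intro q hq
  have h : ∀ᶠ x in ((U * U : Ultrafilter G) : Filter G), q x := by
    rw [hUU]
    exact hq
  rwa [Ultrafilter.eventually_mul] at h

end Pool.Agent.Work.MP_3fbbd3_h11
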