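import Pool.Agent.Work.MP_3fbbd3_h11.GRUN
import Pool.Agent.Work.MP_3fbbd3_h11.Main2
import Pool.Agent.Work.MP_3fbbd3_h11.FG
import Pool.Agent.Work.MP_3fbbd3_h11.FI
import Pool.Agent.Work.MP_3fbbd3_h11.BRK
import Pool.Agent.Work.MP_3fbbd3_h11.EXPN
import Pool.Agent.Work.MP_3fbbd3_h11.FFG
import Pool.Agent.Work.MP_3fbbd3_h11.POLY
import Pool.Agent.Work.MP_3fbbd3_h11.AVOID
import Pool.Agent.Work.MP_3fbbd3_h11.ULT
import Pool.Agent.Work.MP_3fbbd3_h11.KMC
import Pool.Agent.Work.MP_3fbbd3_h11.KMA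

/-!
# Finitary abelian sections of minimal non-solvable perfect `p`-groups

Let `G` be a nontrivial perfect `p`-group in which the normal closure of every finite set is
nilpotent.  If `G` has a noncentral abelian normal section `V/R` and a number `k` such that the
iterated commutators `[g₁, [g₂, ..., [gₖ, V]]]` are finite modulo `R` for all `g₁, ..., gₖ`,
then `G` has a proper subgroup that is not solvable.
-/

namespace Pool.Agent.Results.MP_3fbbd3_al.NoFinitarySection

open Subgroup Pool.Agent.Work.MP_3fbbd3_h11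
open scoped commutatorElement

universe u

/-- **Main theorem.** -/
theorem result (p : ℕ) (hp : p.Prime) (G : Type u) [Group G] [Nontrivial G] (hG : IsPGroup p G)
    (hperf : commutator G = ⊤)
    (hlf : ∀ s : Set G, s.Finite → ((Subgroup.closure s : Subgroup G) : Set G).Finite)
    (hfit : ∀ s : Set G, s.Finite → Group.IsNilpotent (Subgroup.normalClosure s))
    (R V : Subgroup G) [hR : R.Normal] [hV : V.Normal] (_hRV : R ≤ V)
    (hab : ⁅V, V⁆ ≤ R) (hnc : ¬ ⁅V, (⊤ : Subgroup G)⁆ ≤ R) (k : ℕ)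
    (hfin : ∀ l : List G, l.length = k →
      ((fun v : G => (QuotientGroup.mk (l.foldr (fun g w => ⁅g, w⁆) v) : G ⧸ R)) ''
        (V : Set G)).Finite) :
    ∃ H : Subgroup G, H ≠ ⊤ ∧ ¬ Group.IsSolvable H :=
  main_T2' blk_FI blk_BRK (blk_AVOID blk_EXPN blk_FFG blk_POLY) blk_ULT
    (blk_KMA blk_FI blk_KMC) blk_GRUN p G ⟨hp, inferInstance, hG, hperf, hlf⟩ hfit R V hR hV
    hab hnc k hfin

end Pool.Agent.Results.MP_3fbbd3_al.NoFinitarySection
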