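import Pool.Agent.Work.MP_3fbbd3_h11.GRUN
import Pool.Agent.Work.MP_3fbbd3_h11.Main
import Pool.Agent.Work.MP_3fbbd3_h11.FG
import Pool.Agent.Work.MP_3fbbd3_h11.FI
import Pool.Agent.Work.MP_3fbbd3_h11.BRK
import Pool.Agent.Work.MP_3fbbd3_h11.EXPN
import Pool.Agent.Work.MP_3fbbd3_h11.FFG
import Pool.Agent.Work.MP_3fbbd3_h11.POLY
import Pool.Agent.Work.MP_3fbbd3_h11.AVOID
import Pool.Agent.Work.MP_3fbbd3_h11.ULT
import Pool.Agent.Work.MP_3fbbd3_h11.KMC
import Pool.Agent.Work.MP_3fbbd3_h11.KMA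
import Pool.Agent.Work.MP_3fbbd3_h11.FITT
import Pool.Agent.Work.MP_3fbbd3_h11.RED

/-!
# Perfect locally finite `p`-groups have proper subgroups that are not metanilpotent

Every nontrivial perfect locally finite `p`-group has a proper subgroup `H` without a normal
subgroup `N` such that `N` and `H ⧸ N` are both nilpotent.
-/

namespace Pool.Agent.Results.MP_3fbbd3_al.NonMetanilpotent

open Subgroup Pool.Agent.Work.MP_3fbbd3_h11

universe u

theorem meta_of {G : Type u} [Group G] (H : Subgroup G) (N : Subgroup H) (hN : N.Normal)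
    (h1 : Group.IsNilpotent N) (h2 : Group.IsNilpotent (H ⧸ N)) : MNil H := by
  obtain ⟨m, hm⟩ := (isNilpotent_iff_lowerCentralSeries N).1 h1
  obtain ⟨n, hn⟩ := Subgroup.nilpotent_iff_lowerCentralSeries.1 h2
  have h3 : ((⊤ : Subgroup H).lowerCentralSeries n) ≤ N := by
    have h4 : ((⊤ : Subgroup H).lowerCentralSeries n).map (QuotientGroup.mk' N) = ⊥ := by
      rw [map_lowerCentralSeries, map_top_of_surjective _ (QuotientGroup.mk'_surjective N), hn]
    rw [Subgroup.map_eq_bot_iff, QuotientGroup.ker_mk'] at h4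
    exact h4
  have h5 : ((⊤ : Subgroup H).lowerCentralSeries n).lowerCentralSeries m = ⊥ := by
    rw [eq_bot_iff, ← hm]
    exact Subgroup.lowerCentralSeries_mono m h3
  have h6 : (H.lowerCentralSeries n).lowerCentralSeries m = ⊥ := by
    have h7 := congrArg (Subgroup.map H.subtype) h5
    rw [map_lowerCentralSeries, map_lowerCentralSeries, Subgroup.map_bot,
      ← MonoidHom.range_eq_map, range_subtype] at h7
    exact h7
  refine ⟨max n m, ?_⟩
  rw [eq_bot_iff, ← h6, ← kw_ev]
  exact kw_antitone (le_max_left _ _) (le_max_right _ _) H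

/-- **Main theorem.** Every nontrivial perfect locally finite `p`-group has a proper subgroup
which is not nilpotent-by-nilpotent. -/
theorem result (p : ℕ) (hp : p.Prime) (G : Type u) [Group G] [Nontrivial G] (hG : IsPGroup p G)
    (hperf : commutator G = ⊤)
    (hlf : ∀ s : Set G, s.Finite → ((Subgroup.closure s : Subgroup G) : Set G).Finite) :
    ∃ H : Subgroup G, H ≠ ⊤ ∧ ¬ ∃ (N : Subgroup H) (_ : N.Normal),
      Group.IsNilpotent N ∧ Group.IsNilpotent (H ⧸ N) := by
  obtain ⟨H, hH, hmeta⟩ := main_T1 blk_FI blk_BRK (blk_AVOID blk_EXPN blk_FFG blk_POLY) blk_ULT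
    (blk_KMA blk_FI blk_KMC) (blk_RED blk_FG blk_FITT) blk_GRUN p G
    ⟨hp, inferInstance, hG, hperf, hlf⟩
  exact ⟨H, hH, fun ⟨N, hN, h1, h2⟩ => hmeta (meta_of H N hN h1 h2)⟩

end Pool.Agent.Results.MP_3fbbd3_al.NonMetanilpotent
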